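import Mathlib
import Pool.Agent.K7.H57.Suf.Main

/-!
# The matrices of the words in `x`, `y`, acting on the differences of harmonic sums
-/

set_option autoImplicit false

namespace Pool.Agent.K7.H51.MZ

open Filter Topology
open Pool.Agent.H447R2.MZ (H H_nil H_cons H_cons_zero H_cons_succ H_nonneg Adm val tendsto_H H_le_val)
open Pool.Agent.K7.H57.Suf (hR hR_nonneg sum_hR bump cn cn_pos cn_succ cn_symm H_zero_of_lt H_pos nat_map)

/-! ### the words and their indices -/

/-- `decA 0 w` is the list of the `k_i` for the word `w = y_{k_1} ... y_{k_t}`, `x = false`, `y = true` -/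
def decA : ℕ → List Bool → List ℕ
  | _, [] => []
  | c, true :: u => (c + 1) :: decA 0 u
  | c, false :: u => decA (c + 1) u

lemma decA_succ (w : List Bool) (c : ℕ) : decA (c + 1) w = bump (decA c w) := by
  induction w generalizing c with
  | nil => rfl
  | cons b w ih =>
    cases b with
    | true => rw [decA, decA, bump]
    | false => rw [decA, decA, ih]

lemma decA_false (w : List Bool) : decA 0 (false :: w) = bump (decA 0 w) := by
  rw [decA, decA_succ]

lemma decA_true (w : List Bool) : decA 0 (true :: w) = 1 :: decA 0 w := by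
  rw [decA]

lemma decA_length (w : List Bool) (c : ℕ) : (decA c w).length = w.count true := by
  induction w generalizing c with
  | nil => rfl
  | cons b w ih =>
    cases b with
    | true => rw [decA, List.length_cons, ih, List.count_cons_self]
    | false => rw [decA, ih, List.count_cons_of_ne (by decide)]

lemma decA_ne {w : List Bool} (h : true ∈ w) : decA 0 w ≠ [] := by
  intro h0
  have h1 := decA_length w 0
  rw [h0, List.length_nil] at h1
  have := List.count_pos_iff.2 h
  omega

lemma exists_decA {w : List Bool} (h : true ∈ w) : ∃ a t, decA 0 w = a :: t := by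
  have h1 := decA_ne h
  revert h1
  generalize decA 0 w = l
  intro h1
  cases l with
  | nil => exact absurd rfl h1
  | cons a t => exact ⟨a, t, rfl⟩

/-- the differences of the harmonic sums of the word `w` -/
noncomputable def Aw (w : List Bool) (m : ℕ) : ℝ := hR (decA 0 w) m

lemma Aw_nonneg (w : List Bool) (m : ℕ) : 0 ≤ Aw w m := hR_nonneg _ _

lemma sum_Aw (w : List Bool) (n : ℕ) : ∑ k ∈ Finset.range (n + 1), Aw w k = H (decA 0 w) n := sum_hR _ _

lemma Aw_le (w : List Bool) (n : ℕ) : Aw w n ≤ H (decA 0 w) n := by
  rw [← sum_Aw]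
  exact Finset.single_le_sum (f := fun k => Aw w k) (fun k _ => Aw_nonneg _ _) (Finset.self_mem_range_succ n)

lemma Aw_false {w : List Bool} (h : true ∈ w) (m : ℕ) : Aw (false :: w) m = (m : ℝ)⁻¹ * Aw w m := by
  obtain ⟨a, t, h1⟩ := exists_decA h
  rw [Aw, Aw, decA_false, h1, bump]
  cases m with
  | zero => simp [hR]
  | succ m =>
    rw [hR, hR, pow_succ, mul_inv]
    ring

lemma Aw_true (w : List Bool) (m : ℕ) : Aw (true :: w) m = (m : ℝ)⁻¹ * ∑ k ∈ Finset.range m, Aw w k := by
  rw [Aw, decA_true]
  cases m with
  | zero => simp [hR]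
  | succ m =>
    rw [sum_Aw, hR, pow_one]

lemma Aw_zero_of_lt (w : List Bool) (m : ℕ) (h : m < w.count true) : Aw w m = 0 := by
  have h1 := Aw_le w m
  rw [H_zero_of_lt _ m (by rwa [decA_length])] at h1
  exact le_antisymm h1 (Aw_nonneg _ _)

/-- the value at the first place -/
lemma Aw_first {w : List Bool} (h : true ∈ w) : Aw w (w.count true) = H (decA 0 w) (w.count true) := by
  have hd : 0 < w.count true := List.count_pos_iff.2 h
  rw [← sum_Aw, Finset.sum_range_succ, Finset.sum_eq_zero fun k hk => Aw_zero_of_lt w k (Finset.mem_range.1 hk),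
    zero_add]

lemma Aw_first_pos {w : List Bool} (h : true ∈ w) : 0 < Aw w (w.count true) := by
  rw [Aw_first h, ← decA_length w 0]
  exact H_pos _

/-! ### the matrices -/

/-- the matrix of the word `v` -/
noncomputable def Mm : List Bool → ℕ → ℕ → ℝ
  | [], n, m => if n = m then 1 else 0
  | false :: v, n, m => (m : ℝ)⁻¹ * Mm v n m
  | true :: v, n, m => (m : ℝ)⁻¹ * ∑ k ∈ Finset.range m, Mm v n k

lemma Mm_zero (v : List Bool) (n m : ℕ) (h : m < n) : Mm v n m = 0 := by
  induction v generalizing m with
  | nil => rw [Mm, if_neg (by omega)]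
  | cons b v ih =>
    cases b with
    | false => rw [Mm, ih m h, mul_zero]
    | true =>
      rw [Mm, Finset.sum_eq_zero fun k hk => ih k (by have := Finset.mem_range.1 hk; omega), mul_zero]

lemma Mm_nonneg (v : List Bool) (n m : ℕ) : 0 ≤ Mm v n m := by
  induction v generalizing m with
  | nil => rw [Mm]; split_ifs <;> norm_num
  | cons b v ih =>
    cases b with
    | false => rw [Mm]; exact mul_nonneg (by positivity) (ih m)
    | true => rw [Mm]; exact mul_nonneg (by positivity) (Finset.sum_nonneg fun k _ => ih k)

lemma Mm_le_one (v : List Bool) (n m : ℕ) : Mm v n m ≤ 1 := by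
  induction v generalizing m with
  | nil => rw [Mm]; split_ifs <;> norm_num
  | cons b v ih =>
    rcases Nat.eq_zero_or_pos m with rfl | hm
    · cases b <;> simp [Mm]
    have hm1 : (1 : ℝ) ≤ m := by exact_mod_cast hm
    have hm0 : (0 : ℝ) < m := by linarith
    cases b with
    | false =>
      rw [Mm, inv_mul_le_iff₀ hm0, mul_one]
      exact (ih m).trans hm1
    | true =>
      rw [Mm, inv_mul_le_iff₀ hm0, mul_one]
      refine (Finset.sum_le_sum fun k _ => ih k).trans ?_
      simp

lemma Aw_append (v s : List Bool) (hs : true ∈ s) (N m : ℕ) (h : m < N) :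
    Aw (v ++ s) m = ∑ n ∈ Finset.range N, Mm v n m * Aw s n := by
  induction v generalizing m with
  | nil =>
    rw [List.nil_append, Finset.sum_eq_single m]
    · rw [Mm, if_pos rfl, one_mul]
    · intro n _ hn
      rw [Mm, if_neg hn, zero_mul]
    · intro h1
      exact absurd (Finset.mem_range.2 h) h1
  | cons b v ih =>
    cases b with
    | false =>
      rw [List.cons_append, Aw_false (List.mem_append_right _ hs), ih m h, Finset.mul_sum]
      refine Finset.sum_congr rfl fun n _ => ?_
      rw [Mm]
      ring
    | true =>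
      rw [List.cons_append, Aw_true, Finset.sum_congr rfl fun k hk => ih k (by
        have := Finset.mem_range.1 hk; omega), Finset.sum_comm, Finset.mul_sum]
      refine Finset.sum_congr rfl fun n _ => ?_
      rw [Mm, Finset.mul_sum, Finset.mul_sum, Finset.sum_mul]
      refine Finset.sum_congr rfl fun k _ => ?_
      ring

/-- the upper bound -/
lemma H_choose (w : List ℕ) (m : ℕ) : H w m ≤ (m.choose w.length : ℝ) * H w w.length := by
  induction w generalizing m with
  | nil => simp [H_nil]
  | cons a w ih =>
    have hW := H_nonneg w w.length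
    have h0 : H (a :: w) (w.length + 1) = (((w.length + 1 : ℕ) : ℝ) ^ a)⁻¹ * H w w.length := by
      rw [H_cons_succ, H_zero_of_lt _ _ (by rw [List.length_cons]; omega), zero_add]
    rw [List.length_cons, h0]
    induction m with
    | zero => rw [H_cons_zero]; positivity
    | succ m ihm =>
      rw [H_cons_succ, Nat.choose_succ_succ]
      push_cast
      have h1 : (((m + 1 : ℕ) : ℝ) ^ a)⁻¹ * H w m ≤
          (m.choose w.length : ℝ) * ((((w.length + 1 : ℕ) : ℝ) ^ a)⁻¹ * H w w.length) := by
        rcases Nat.lt_or_ge m w.length with hm | hm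
        · rw [H_zero_of_lt _ _ hm, mul_zero]
          positivity
        · have h2 : (((m + 1 : ℕ) : ℝ) ^ a)⁻¹ ≤ (((w.length + 1 : ℕ) : ℝ) ^ a)⁻¹ := by
            apply inv_anti₀ (by positivity)
            apply pow_le_pow_left₀ (by positivity)
            exact_mod_cast (by omega : w.length + 1 ≤ m + 1)
          calc (((m + 1 : ℕ) : ℝ) ^ a)⁻¹ * H w m
              ≤ (((w.length + 1 : ℕ) : ℝ) ^ a)⁻¹ * ((m.choose w.length : ℝ) * H w w.length) :=
                mul_le_mul h2 (ih m) (H_nonneg _ _) (by positivity)
            _ = _ := by ring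
      push_cast at h1 ihm
      linarith

lemma Aw_append_le (v s : List Bool) (hs : true ∈ s) (m : ℕ) :
    Aw (v ++ s) m ≤ (m.choose (s.count true) : ℝ) * Aw s (s.count true) := by
  rw [Aw_append v s hs (m + 1) m (Nat.lt_succ_self m)]
  refine (Finset.sum_le_sum fun n _ => mul_le_of_le_one_left (Aw_nonneg s n) (Mm_le_one v n m)).trans ?_
  rw [sum_Aw, Aw_first hs]
  have h := H_choose (decA 0 s) m
  rwa [decA_length] at h

end Pool.Agent.K7.H51.MZ
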