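import Mathlib
import Pool.Agent.K7.H51.MZ.Mat

/-!
# Sums with rapidly decreasing weights; the polynomials of the matrices
-/

set_option autoImplicit false

namespace Pool.Agent.K7.H51.MZ

open Filter Topology

lemma choose_step {d : ℕ} (hd : 1 ≤ d) {L : ℝ} (hL : 14 * (d : ℝ) ^ 2 ≤ L) {ω : ℕ → ℝ} (h0 : ∀ m, 0 ≤ ω m)
    (hω : ∀ m, 1 ≤ m → ω (m + 1) * (L + m + 1) ≤ ((m : ℝ) + 1) * ω m) {m : ℕ} (hm : d ≤ m) :
    ((m + 1).choose d : ℝ) * ω (m + 1) * ((m + 1 : ℕ) : ℝ) ^ 2 ≤ (m.choose d : ℝ) * ω m * (m : ℝ) ^ 2 := by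
  obtain ⟨e, rfl⟩ : ∃ e, m = d + e := ⟨m - d, by omega⟩
  have h1 := Nat.choose_mul_succ_eq (d + e) d
  rw [show d + e + 1 - d = e + 1 by omega] at h1
  have h1r : (((d + e).choose d : ℕ) : ℝ) * ((d : ℝ) + e + 1) = (((d + e + 1).choose d : ℕ) : ℝ) * ((e : ℝ) + 1) := by
    exact_mod_cast h1
  have h2 := hω (d + e) (by omega)
  have hdr : (1 : ℝ) ≤ d := by exact_mod_cast hd
  have her : (0 : ℝ) ≤ e := Nat.cast_nonneg _
  set a : ℝ := (((d + e).choose d : ℕ) : ℝ) with ha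
  set b : ℝ := (((d + e + 1).choose d : ℕ) : ℝ) with hb
  have ha0 : 0 ≤ a := Nat.cast_nonneg _
  have hb0 : 0 ≤ b := Nat.cast_nonneg _
  have hw0 := h0 (d + e)
  have hw1 := h0 (d + e + 1)
  generalize ω (d + e) = w at *
  generalize ω (d + e + 1) = w' at *
  push_cast at h2 ⊢
  -- `b = a (m + 1) / (e + 1)`, `w' ≤ (m + 1) w / (L + m + 1)`
  have hL0 : 0 < L + (d + e) + 1 := by nlinarith
  have he0 : (0 : ℝ) < (e : ℝ) + 1 := by positivity
  have hb1 : b = a * ((d : ℝ) + e + 1) / ((e : ℝ) + 1) := by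
    rw [eq_div_iff he0.ne', ← h1r]
  have hw2 : w' ≤ ((d : ℝ) + e + 1) * w / (L + (d + e) + 1) := by
    rw [le_div_iff₀ hL0]
    exact h2
  have hkey : ((d : ℝ) + e + 1) ^ 4 ≤ ((d : ℝ) + e) ^ 2 * (((e : ℝ) + 1) * (L + (d + e) + 1)) := by
    have hm1 : (1 : ℝ) ≤ (d : ℝ) + e := by linarith
    set x : ℝ := (d : ℝ) + e with hx
    have h3 : (x + 1) ^ 3 ≤ x ^ 2 * (x + 7) := by nlinarith
    have h4 : (x + 7) * (x + 1) ≤ ((e : ℝ) + 1) * (L + x + 1) := by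
      have h5 : x = (e : ℝ) + 1 + (d - 1) := by rw [hx]; ring
      have h6 : (x + 7) * (x + 1) = (e + 1 + (d + 6)) * (e + 1 + d) := by rw [h5]; ring
      have h7 : ((e : ℝ) + 1) * (L + x + 1) = ((e : ℝ) + 1) * L + (e + 1) * (e + 1 + d) := by rw [h5]; ring
      rw [h6, h7]
      have h8 : ((e : ℝ) + 1) * (14 * (d : ℝ) ^ 2) ≤ ((e : ℝ) + 1) * L := mul_le_mul_of_nonneg_left hL he0.le
      have h9 : (d : ℝ) ≤ (d : ℝ) ^ 2 := by nlinarith
      have h10 : (d : ℝ) ^ 2 ≤ ((e : ℝ) + 1) * (d : ℝ) ^ 2 := by nlinarith [sq_nonneg (d : ℝ)]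
      have h11 : (e + 1 : ℝ) ≤ ((e : ℝ) + 1) * (d : ℝ) ^ 2 := by nlinarith
      nlinarith [mul_le_mul_of_nonneg_left h9 he0.le]
    calc (x + 1) ^ 4 = (x + 1) ^ 3 * (x + 1) := by ring
      _ ≤ x ^ 2 * (x + 7) * (x + 1) := mul_le_mul_of_nonneg_right h3 (by linarith)
      _ = x ^ 2 * ((x + 7) * (x + 1)) := by ring
      _ ≤ x ^ 2 * (((e : ℝ) + 1) * (L + x + 1)) := mul_le_mul_of_nonneg_left h4 (by positivity)
  calc b * w' * ((d : ℝ) + e + 1) ^ 2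
      ≤ b * (((d : ℝ) + e + 1) * w / (L + (d + e) + 1)) * ((d : ℝ) + e + 1) ^ 2 := by
        exact mul_le_mul_of_nonneg_right (mul_le_mul_of_nonneg_left hw2 hb0) (by positivity)
    _ = a * w * (((d : ℝ) + e + 1) ^ 4 / (((e : ℝ) + 1) * (L + (d + e) + 1))) := by
        rw [hb1]
        field_simp
    _ ≤ a * w * ((d : ℝ) + e) ^ 2 := by
        refine mul_le_mul_of_nonneg_left ?_ (mul_nonneg ha0 hw0)
        rw [div_le_iff₀ (mul_pos he0 hL0)]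
        exact hkey

lemma choose_tail {d : ℕ} (hd : 1 ≤ d) {L : ℝ} (hL : 14 * (d : ℝ) ^ 2 ≤ L) {ω : ℕ → ℝ} (h0 : ∀ m, 0 ≤ ω m)
    (hω : ∀ m, 1 ≤ m → ω (m + 1) * (L + m + 1) ≤ ((m : ℝ) + 1) * ω m) {m1 : ℕ} (hm : d ≤ m1) {m : ℕ} (h : m1 ≤ m) :
    (m.choose d : ℝ) * ω m * (m : ℝ) ^ 2 ≤ (m1.choose d : ℝ) * ω m1 * (m1 : ℝ) ^ 2 := by
  induction m, h using Nat.le_induction with
  | base => exact le_rfl
  | succ m h ih => exact (choose_step hd hL h0 hω (hm.trans h)).trans ih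

lemma sum_sq_le {m1 : ℕ} (hm : 1 ≤ m1) {N : ℕ} (h : m1 ≤ N) :
    ∑ m ∈ Finset.Ico m1 N, ((m : ℝ) ^ 2)⁻¹ ≤ 2 / (m1 : ℝ) - 2 / (N : ℝ) := by
  induction N, h using Nat.le_induction with
  | base => simp
  | succ N hN ih =>
    rw [Finset.sum_Ico_succ_top hN]
    have hN1 : (1 : ℝ) ≤ N := by exact_mod_cast (by omega : 1 ≤ N)
    have h1 : ((N : ℝ) ^ 2)⁻¹ ≤ 2 / (N : ℝ) - 2 / ((N + 1 : ℕ) : ℝ) := by
      push_cast
      rw [div_sub_div _ _ (by positivity) (by positivity), inv_eq_one_div, div_le_div_iff₀ (by positivity) (by positivity)]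
      nlinarith
    linarith

/-- the weighted tail -/
lemma tail_sum {d : ℕ} (hd : 1 ≤ d) {L : ℝ} (hL : 14 * (d : ℝ) ^ 2 ≤ L) {ω : ℕ → ℝ} (h0 : ∀ m, 0 ≤ ω m)
    (hω : ∀ m, 1 ≤ m → ω (m + 1) * (L + m + 1) ≤ ((m : ℝ) + 1) * ω m) {m1 : ℕ} (hm : d ≤ m1) (N : ℕ) :
    ∑ m ∈ Finset.Ico m1 N, ω m * (m.choose d : ℝ) ≤ 2 * (m1 : ℝ) * (m1.choose d : ℝ) * ω m1 := by
  rcases Nat.lt_or_ge N m1 with hN | hN
  · rw [Finset.Ico_eq_empty (by omega), Finset.sum_empty]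
    have := h0 m1
    positivity
  have hm1 : (1 : ℝ) ≤ m1 := by exact_mod_cast (hd.trans hm)
  have hK : 0 ≤ (m1.choose d : ℝ) * ω m1 * (m1 : ℝ) ^ 2 := by
    have := h0 m1
    positivity
  have h1 : ∀ m ∈ Finset.Ico m1 N, ω m * (m.choose d : ℝ) ≤
      (m1.choose d : ℝ) * ω m1 * (m1 : ℝ) ^ 2 * ((m : ℝ) ^ 2)⁻¹ := by
    intro m hm'
    have h2 := choose_tail hd hL h0 hω hm (Finset.mem_Ico.1 hm').1
    have hm0 : (0 : ℝ) < (m : ℝ) ^ 2 := by
      have : 0 < m := by have := (Finset.mem_Ico.1 hm').1; omega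
      positivity
    rw [← div_eq_mul_inv, le_div_iff₀ hm0]
    refine le_trans (le_of_eq ?_) h2
    ring
  refine (Finset.sum_le_sum h1).trans ?_
  rw [← Finset.mul_sum]
  have h3 := sum_sq_le (hd.trans hm) hN
  have h4 : (0 : ℝ) ≤ 2 / (N : ℝ) := by positivity
  calc (m1.choose d : ℝ) * ω m1 * (m1 : ℝ) ^ 2 * ∑ m ∈ Finset.Ico m1 N, ((m : ℝ) ^ 2)⁻¹
      ≤ (m1.choose d : ℝ) * ω m1 * (m1 : ℝ) ^ 2 * (2 / (m1 : ℝ)) :=
        mul_le_mul_of_nonneg_left (by linarith) hK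
    _ = 2 * (m1 : ℝ) * (m1.choose d : ℝ) * ω m1 := by
        field_simp

lemma choose_le_pow {d m M : ℕ} (hm : d ≤ m) (hM : m ≤ d + M) (h1 : 1 ≤ m) : (m.choose d : ℝ) ≤ (m : ℝ) ^ M := by
  have h2 : m.choose d ≤ m ^ M := by
    rw [← Nat.choose_symm hm]
    exact (Nat.choose_le_pow m (m - d)).trans (Nat.pow_le_pow_right h1 (by omega))
  exact_mod_cast h2

/-- upper bound for a weighted sum -/
lemma upper_sum {d : ℕ} (hd : 1 ≤ d) {L : ℝ} (hL : 14 * (d : ℝ) ^ 2 ≤ L) {ω : ℕ → ℝ} (h0 : ∀ m, 0 ≤ ω m)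
    (hω : ∀ m, 1 ≤ m → ω (m + 1) * (L + m + 1) ≤ ((m : ℝ) + 1) * ω m) (M : ℕ) {G : ℕ → ℝ} {A : ℝ} (hA : 0 ≤ A)
    (hG : ∀ m, |G m| ≤ A * (m.choose d : ℝ)) (hG0 : ∀ m < d + M, G m = 0) {S : ℝ}
    (hS : HasSum (fun m => ω m * G m) S) :
    |S| ≤ A * (2 * ((d + M : ℕ) : ℝ) ^ (M + 1)) * ω (d + M) := by
  have h1 : ∀ N, |∑ m ∈ Finset.range N, ω m * G m| ≤ A * (2 * ((d + M : ℕ) : ℝ) ^ (M + 1)) * ω (d + M) := by
    intro N
    have h2 : |∑ m ∈ Finset.range N, ω m * G m| ≤ ∑ m ∈ Finset.Ico (d + M) (max N (d + M)), A * (ω m * (m.choose d : ℝ)) := by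
      refine (Finset.abs_sum_le_sum_abs _ _).trans ?_
      have h3 : ∑ m ∈ Finset.range N, |ω m * G m| ≤ ∑ m ∈ Finset.range (max N (d + M)), |ω m * G m| :=
        Finset.sum_le_sum_of_subset_of_nonneg (Finset.range_mono (le_max_left _ _)) fun _ _ _ => abs_nonneg _
      refine h3.trans ?_
      rw [← Finset.sum_range_add_sum_Ico _ (le_max_right N (d + M)), Finset.sum_eq_zero (s := Finset.range (d + M)), zero_add]
      · refine Finset.sum_le_sum fun m _ => ?_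
        rw [abs_mul, abs_of_nonneg (h0 m)]
        calc ω m * |G m| ≤ ω m * (A * (m.choose d : ℝ)) := mul_le_mul_of_nonneg_left (hG m) (h0 m)
          _ = _ := by ring
      · intro m hm
        rw [hG0 m (Finset.mem_range.1 hm), mul_zero, abs_zero]
    refine h2.trans ?_
    rw [← Finset.mul_sum, mul_assoc]
    refine mul_le_mul_of_nonneg_left ?_ hA
    refine (tail_sum hd hL h0 hω (Nat.le_add_right d M) _).trans ?_
    refine mul_le_mul_of_nonneg_right ?_ (h0 _)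
    have h4 := choose_le_pow (Nat.le_add_right d M) le_rfl (by omega : 1 ≤ d + M)
    have h5 : (0 : ℝ) ≤ ((d + M : ℕ) : ℝ) := Nat.cast_nonneg _
    calc 2 * ((d + M : ℕ) : ℝ) * ((d + M).choose d : ℝ) ≤ 2 * ((d + M : ℕ) : ℝ) * ((d + M : ℕ) : ℝ) ^ M :=
          mul_le_mul_of_nonneg_left h4 (by positivity)
      _ = 2 * ((d + M : ℕ) : ℝ) ^ (M + 1) := by ring
  exact le_of_tendsto hS.tendsto_sum_nat.abs (Eventually.of_forall h1)

/-- the first value dominates -/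
lemma lower_sum {d : ℕ} (hd : 1 ≤ d) {L : ℝ} (hL : 14 * (d : ℝ) ^ 2 ≤ L) {ω : ℕ → ℝ} (h0 : ∀ m, 0 ≤ ω m)
    (hω : ∀ m, 1 ≤ m → ω (m + 1) * (L + m + 1) ≤ ((m : ℝ) + 1) * ω m) {M i0 : ℕ} (hi0 : i0 ≤ M) {G : ℕ → ℝ} {A g : ℝ}
    (hA : 0 ≤ A) (hG : ∀ m, |G m| ≤ A * (m.choose d : ℝ)) (hG0 : ∀ m < d + i0, G m = 0) (hg : g ≤ |G (d + i0)|)
    (hLg : 4 * A * ((d + M + 1 : ℕ) : ℝ) ^ (M + 3) ≤ L * g) {S : ℝ}
    (hS : HasSum (fun m => ω m * G m) S) :
    g / 2 * ω (d + i0) ≤ |S| := by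
  have hL0 : 0 < L := by
    have : (1 : ℝ) ≤ d := by exact_mod_cast hd
    nlinarith
  -- the rest
  let G' : ℕ → ℝ := fun m => if m = d + i0 then 0 else G m
  have hS' : HasSum (fun m => ω m * G' m) (S - ω (d + i0) * G (d + i0)) := by
    have h1 := hasSum_ite_eq (d + i0) (ω (d + i0) * G (d + i0))
    have h2 := hS.sub h1
    refine h2.congr_fun ?_ |> id
    intro m
    by_cases hm : m = d + i0
    · subst hm; simp [G']
    · simp [G', hm]
  have h1 := upper_sum hd hL h0 hω (i0 + 1) hA (G := G') (fun m => by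
    by_cases hm : m = d + i0
    · simp only [G', hm, if_true, abs_zero]; positivity
    · simp only [G', hm, if_false]; exact hG m) (fun m hm => by
    by_cases hm' : m = d + i0
    · simp [G', hm']
    · simp only [G', hm', if_false]; exact hG0 m (by omega)) hS'
  have h2 := hω (d + i0) (by omega)
  have h3 : L * ω (d + (i0 + 1)) ≤ ((d + M + 1 : ℕ) : ℝ) * ω (d + i0) := by
    have h4 : ω (d + i0 + 1) * L ≤ ω (d + i0 + 1) * (L + ((d + i0 : ℕ) : ℝ) + 1) :=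
      mul_le_mul_of_nonneg_left (by linarith [Nat.cast_nonneg (α := ℝ) (d + i0)]) (h0 _)
    have h5 : (((d + i0 : ℕ) : ℝ) + 1) * ω (d + i0) ≤ ((d + M + 1 : ℕ) : ℝ) * ω (d + i0) := by
      refine mul_le_mul_of_nonneg_right ?_ (h0 _)
      exact_mod_cast (by omega : d + i0 + 1 ≤ d + M + 1)
    rw [← add_assoc, mul_comm]
    linarith
  have hX : (1 : ℝ) ≤ ((d + M + 1 : ℕ) : ℝ) := by exact_mod_cast (by omega : 1 ≤ d + M + 1)
  have h6 : ((d + (i0 + 1) : ℕ) : ℝ) ^ (i0 + 1 + 1) ≤ ((d + M + 1 : ℕ) : ℝ) ^ (M + 2) := by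
    calc ((d + (i0 + 1) : ℕ) : ℝ) ^ (i0 + 1 + 1) ≤ ((d + M + 1 : ℕ) : ℝ) ^ (i0 + 1 + 1) := by
          apply pow_le_pow_left₀ (Nat.cast_nonneg _)
          exact_mod_cast (by omega : d + (i0 + 1) ≤ d + M + 1)
      _ ≤ _ := pow_le_pow_right₀ hX (by omega)
  have h7 : L * |S - ω (d + i0) * G (d + i0)| ≤ L * (g / 2 * ω (d + i0)) := by
    calc L * |S - ω (d + i0) * G (d + i0)|
        ≤ L * (A * (2 * ((d + (i0 + 1) : ℕ) : ℝ) ^ (i0 + 1 + 1)) * ω (d + (i0 + 1))) :=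
          mul_le_mul_of_nonneg_left h1 hL0.le
      _ = (2 * A * ((d + (i0 + 1) : ℕ) : ℝ) ^ (i0 + 1 + 1)) * (L * ω (d + (i0 + 1))) := by ring
      _ ≤ (2 * A * ((d + M + 1 : ℕ) : ℝ) ^ (M + 2)) * (((d + M + 1 : ℕ) : ℝ) * ω (d + i0)) := by
          refine mul_le_mul (mul_le_mul_of_nonneg_left h6 (by positivity)) h3 (mul_nonneg hL0.le (h0 _)) (by positivity)
      _ = (4 * A * ((d + M + 1 : ℕ) : ℝ) ^ (M + 3)) * ω (d + i0) / 2 := by ring
      _ ≤ (L * g) * ω (d + i0) / 2 := by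
          refine div_le_div_of_nonneg_right (mul_le_mul_of_nonneg_right hLg (h0 _)) (by norm_num)
      _ = L * (g / 2 * ω (d + i0)) := by ring
  have h8 := le_of_mul_le_mul_left h7 hL0
  have h9 : g * ω (d + i0) ≤ |ω (d + i0) * G (d + i0)| := by
    rw [abs_mul, abs_of_nonneg (h0 _), mul_comm]
    exact mul_le_mul_of_nonneg_left hg (h0 _)
  have h10 : |ω (d + i0) * G (d + i0)| ≤ |S| + |S - ω (d + i0) * G (d + i0)| := by
    have := abs_sub_abs_le_abs_sub (ω (d + i0) * G (d + i0)) S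
    rw [abs_sub_comm] at this
    linarith
  linarith

lemma omega_anti {L : ℝ} (hL : 0 ≤ L) {ω : ℕ → ℝ} (h0 : ∀ m, 0 ≤ ω m)
    (hω : ∀ m, 1 ≤ m → ω (m + 1) * (L + m + 1) ≤ ((m : ℝ) + 1) * ω m) {a b : ℕ} (ha : 1 ≤ a) (h : a ≤ b) : ω b ≤ ω a := by
  induction b, h using Nat.le_induction with
  | base => exact le_rfl
  | succ b h ih =>
    refine le_trans ?_ ih
    have h1 := hω b (ha.trans h)
    have hb : (0 : ℝ) ≤ b := Nat.cast_nonneg _
    have h2 : ω (b + 1) * ((b : ℝ) + 1) ≤ ω (b + 1) * (L + b + 1) := mul_le_mul_of_nonneg_left (by linarith) (h0 _)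
    have h3 : ω (b + 1) * ((b : ℝ) + 1) ≤ ω b * ((b : ℝ) + 1) := by linarith
    exact le_of_mul_le_mul_right h3 (by positivity)

/-! ### polynomials -/

lemma exists_poly (v : List Bool) : ∀ (W i : ℕ), v.length ≤ W → ∃ Q : Polynomial ℤ, ∀ n : ℕ, 1 ≤ n →
    ((Q.eval (n : ℤ) : ℤ) : ℝ) = Mm v n (n + i) * (∏ l ∈ Finset.range (i + 1), ((n + l : ℕ) : ℝ)) ^ W := by
  induction v with
  | nil =>
    intro W i _
    cases i with
    | zero =>
      refine ⟨Polynomial.X ^ W, fun n _ => ?_⟩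
      rw [Mm]
      simp
    | succ i =>
      refine ⟨0, fun n _ => ?_⟩
      rw [Mm, if_neg (by omega)]
      simp
  | cons b v ih =>
    intro W i hW
    obtain ⟨W', rfl⟩ : ∃ W', W = W' + 1 := ⟨W - 1, by rw [List.length_cons] at hW; omega⟩
    rw [List.length_cons] at hW
    have hE : ∀ (s : Finset ℕ) (n : ℕ), (((∏ l ∈ s, (Polynomial.X + Polynomial.C (l : ℤ))).eval (n : ℤ) : ℤ) : ℝ) =
        ∏ l ∈ s, ((n + l : ℕ) : ℝ) := by
      intro s n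
      rw [Polynomial.eval_prod]
      push_cast
      refine Finset.prod_congr rfl fun l _ => ?_
      simp
    cases b with
    | false =>
      obtain ⟨Q, hQ⟩ := ih W' i (by omega)
      refine ⟨Q * ∏ l ∈ Finset.range i, (Polynomial.X + Polynomial.C (l : ℤ)), fun n hn => ?_⟩
      rw [Polynomial.eval_mul, Int.cast_mul, hQ n hn, hE, Mm]
      have h2 : ∏ l ∈ Finset.range (i + 1), ((n + l : ℕ) : ℝ) =
          (∏ l ∈ Finset.range i, ((n + l : ℕ) : ℝ)) * ((n + i : ℕ) : ℝ) := Finset.prod_range_succ _ _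
      have h3 : ((n + i : ℕ) : ℝ) ≠ 0 := by positivity
      calc Mm v n (n + i) * (∏ l ∈ Finset.range (i + 1), ((n + l : ℕ) : ℝ)) ^ W' *
            ∏ l ∈ Finset.range i, ((n + l : ℕ) : ℝ)
          = ((n + i : ℕ) : ℝ)⁻¹ * Mm v n (n + i) * ((∏ l ∈ Finset.range (i + 1), ((n + l : ℕ) : ℝ)) ^ W' *
            ((∏ l ∈ Finset.range i, ((n + l : ℕ) : ℝ)) * ((n + i : ℕ) : ℝ))) := by
            field_simp
        _ = ((n + i : ℕ) : ℝ)⁻¹ * Mm v n (n + i) * (∏ l ∈ Finset.range (i + 1), ((n + l : ℕ) : ℝ)) ^ (W' + 1) := by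
            rw [pow_succ, ← h2]
    | true =>
      choose Q hQ using fun i' => ih W' i' (by omega)
      refine ⟨∑ i' ∈ Finset.range i, Q i' * (∏ l ∈ Finset.Ico (i' + 1) (i + 1), (Polynomial.X + Polynomial.C (l : ℤ))) ^ W' *
        ∏ l ∈ Finset.range i, (Polynomial.X + Polynomial.C (l : ℤ)), fun n hn => ?_⟩
      rw [Polynomial.eval_finsetSum, Int.cast_sum, Mm, Finset.sum_range_add, Finset.sum_eq_zero (s := Finset.range n),
        zero_add, Finset.mul_sum, Finset.sum_mul]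
      · refine Finset.sum_congr rfl fun i' hi' => ?_
        have hi := Finset.mem_range.1 hi'
        rw [Polynomial.eval_mul, Polynomial.eval_mul, Polynomial.eval_pow, Int.cast_mul, Int.cast_mul, Int.cast_pow,
          hQ i' n hn, hE, hE]
        have h1 : ∏ l ∈ Finset.range (i + 1), ((n + l : ℕ) : ℝ) =
            (∏ l ∈ Finset.range (i' + 1), ((n + l : ℕ) : ℝ)) * ∏ l ∈ Finset.Ico (i' + 1) (i + 1), ((n + l : ℕ) : ℝ) :=
          (Finset.prod_range_mul_prod_Ico _ (by omega)).symm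
        have h2 : ∏ l ∈ Finset.range (i + 1), ((n + l : ℕ) : ℝ) =
            (∏ l ∈ Finset.range i, ((n + l : ℕ) : ℝ)) * ((n + i : ℕ) : ℝ) := Finset.prod_range_succ _ _
        have h3 : ((n + i : ℕ) : ℝ) ≠ 0 := by positivity
        calc Mm v n (n + i') * (∏ l ∈ Finset.range (i' + 1), ((n + l : ℕ) : ℝ)) ^ W' *
              (∏ l ∈ Finset.Ico (i' + 1) (i + 1), ((n + l : ℕ) : ℝ)) ^ W' * ∏ l ∈ Finset.range i, ((n + l : ℕ) : ℝ)
            = Mm v n (n + i') * (∏ l ∈ Finset.range (i + 1), ((n + l : ℕ) : ℝ)) ^ W' *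
              ∏ l ∈ Finset.range i, ((n + l : ℕ) : ℝ) := by rw [h1]; ring
          _ = ((n + i : ℕ) : ℝ)⁻¹ * Mm v n (n + i') * ((∏ l ∈ Finset.range (i + 1), ((n + l : ℕ) : ℝ)) ^ W' *
              ((∏ l ∈ Finset.range i, ((n + l : ℕ) : ℝ)) * ((n + i : ℕ) : ℝ))) := by
              field_simp
          _ = ((n + i : ℕ) : ℝ)⁻¹ * Mm v n (n + i') * (∏ l ∈ Finset.range (i + 1), ((n + l : ℕ) : ℝ)) ^ (W' + 1) := by
              rw [pow_succ, ← h2]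
      · intro k hk
        exact Mm_zero v n k (Finset.mem_range.1 hk)

/-- a lower bound for the values of a polynomial -/
lemma poly_low (P : Polynomial ℝ) (N : ℕ) (hN : P.natDegree ≤ N) {C ρ : ℝ} (hC : ∀ k, |P.coeff k| ≤ C)
    (hρ : 0 < ρ) (hlow : ρ ≤ |P.leadingCoeff|) {x : ℝ} (hx1 : 1 ≤ x) (hx : 2 * C * N ≤ ρ * x) :
    ρ / 2 ≤ |P.eval x| := by
  have hC0 : 0 ≤ C := (abs_nonneg _).trans (hC 0)
  rw [Polynomial.eval_eq_sum_range, Finset.sum_range_succ]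
  have h1 : |∑ k ∈ Finset.range P.natDegree, P.coeff k * x ^ k| ≤ ρ / 2 * x ^ P.natDegree := by
    rcases Nat.eq_zero_or_pos P.natDegree with h0 | h0
    · rw [h0, Finset.range_zero, Finset.sum_empty, abs_zero]
      positivity
    · obtain ⟨D, hD⟩ : ∃ D, P.natDegree = D + 1 := ⟨P.natDegree - 1, by omega⟩
      rw [hD] at hN ⊢
      refine (Finset.abs_sum_le_sum_abs _ _).trans ?_
      have h2 : ∀ k ∈ Finset.range (D + 1), |P.coeff k * x ^ k| ≤ C * x ^ D := by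
        intro k hk
        rw [abs_mul, abs_of_nonneg (by positivity : (0 : ℝ) ≤ x ^ k)]
        exact mul_le_mul (hC k) (pow_le_pow_right₀ hx1 (by have := Finset.mem_range.1 hk; omega)) (by positivity) hC0
      refine (Finset.sum_le_sum h2).trans ?_
      rw [Finset.sum_const, Finset.card_range, nsmul_eq_mul]
      have hNr : ((D + 1 : ℕ) : ℝ) ≤ N := by exact_mod_cast hN
      have h3 : C * ((D + 1 : ℕ) : ℝ) ≤ ρ / 2 * x := by
        have := mul_le_mul_of_nonneg_left hNr hC0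
        linarith
      calc ((D + 1 : ℕ) : ℝ) * (C * x ^ D) = (C * ((D + 1 : ℕ) : ℝ)) * x ^ D := by ring
        _ ≤ (ρ / 2 * x) * x ^ D := mul_le_mul_of_nonneg_right h3 (by positivity)
        _ = ρ / 2 * x ^ (D + 1) := by ring
  have h4 : ρ * x ^ P.natDegree ≤ |P.coeff P.natDegree * x ^ P.natDegree| := by
    rw [abs_mul, abs_of_nonneg (by positivity : (0 : ℝ) ≤ x ^ P.natDegree)]
    exact mul_le_mul_of_nonneg_right hlow (by positivity)
  have h5 : |P.coeff P.natDegree * x ^ P.natDegree| ≤ |∑ k ∈ Finset.range P.natDegree, P.coeff k * x ^ k| +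
      |∑ k ∈ Finset.range P.natDegree, P.coeff k * x ^ k + P.coeff P.natDegree * x ^ P.natDegree| := by
    have := abs_add_le (-(∑ k ∈ Finset.range P.natDegree, P.coeff k * x ^ k))
      (∑ k ∈ Finset.range P.natDegree, P.coeff k * x ^ k + P.coeff P.natDegree * x ^ P.natDegree)
    rw [neg_add_cancel_left, abs_neg] at this
    exact this
  have h6 : (1 : ℝ) ≤ x ^ P.natDegree := one_le_pow₀ hx1
  nlinarith

end Pool.Agent.K7.H51.MZ
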