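import Mathlib
import Pool.Agent.K7.H51.MZ.Ana

/-!
# Combinations of the words `v s`, summed with rapidly decreasing weights
-/

set_option autoImplicit false

namespace Pool.Agent.K7.H51.MZ

open Filter Topology
open Pool.Agent.H447R2.MZ (H H_nil H_cons H_cons_zero H_cons_succ H_nonneg Adm val tendsto_H H_le_val)
open Pool.Agent.Q217.TT (indep_fin common_den H_nat)
open Pool.Agent.K7.H57.Suf (hR hR_nonneg sum_hR nat_map)

/-- the word of an index -/
def wordL : List ℕ → List Bool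
  | [] => []
  | k :: l => List.replicate (k - 1) false ++ true :: wordL l

lemma wordL_decA (v : List Bool) : ∀ c : ℕ, wordL (decA c (v ++ [true])) = List.replicate c false ++ (v ++ [true]) := by
  induction v with
  | nil => intro c; simp [decA, wordL]
  | cons b v ih =>
    intro c
    cases b with
    | true => rw [List.cons_append, decA, wordL, ih 0]; simp
    | false => rw [List.cons_append, decA, ih (c + 1), List.replicate_succ']; simp

lemma decA_inj {v v' : List Bool} (h : decA 0 (v ++ [true]) = decA 0 (v' ++ [true])) : v = v' := by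
  have h1 := wordL_decA v 0
  rw [h, wordL_decA v' 0] at h1
  simpa using h1.symm

lemma decA_pos (u : List Bool) : ∀ c, ∀ s ∈ decA c u, 1 ≤ s := by
  induction u with
  | nil => intro c s hs; exact absurd hs List.not_mem_nil
  | cons a u ih =>
    intro c s hs
    cases a with
    | true =>
      rw [decA] at hs
      rcases List.mem_cons.1 hs with rfl | hs
      · exact Nat.le_add_left _ _
      · exact ih 0 s hs
    | false =>
      rw [decA] at hs
      exact ih (c + 1) s hs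

/-- the index of `v y`, letters in `ℕ+` -/
def yP (v : List Bool) : List ℕ+ := (decA 0 (v ++ [true])).map Nat.toPNat'

lemma nat_yP (v : List Bool) : Pool.Agent.Q217.TT.nat (yP v) = decA 0 (v ++ [true]) := nat_map _ (decA_pos _ 0)

lemma yP_inj {v v' : List Bool} (h : yP v = yP v') : v = v' := by
  apply decA_inj
  rw [← nat_yP, ← nat_yP, h]

/-- finitely many diagonals of the matrices determine a combination of words -/
lemma indep (V : Finset (List Bool)) : ∃ M : ℕ, ∀ c : List Bool → ℤ,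
    (∀ n, 1 ≤ n → ∀ i ≤ M, ∑ v ∈ V, (c v : ℝ) * Mm v n (n + i) = 0) → ∀ v ∈ V, c v = 0 := by
  classical
  have hinj : Set.InjOn yP V := fun u _ v _ h => yP_inj h
  obtain ⟨M, hM⟩ := indep_fin (V.image yP)
  refine ⟨M, fun c hc => ?_⟩
  let c' : List ℕ+ → ℤ := fun w => c (Function.invFunOn yP V w)
  have hc' : ∀ u ∈ V, c' (yP u) = c u := by
    intro u hu
    have h1 : Function.invFunOn yP V (yP u) = u := by
      have h2 : ∃ v ∈ (V : Set (List Bool)), yP v = yP u := ⟨u, hu, rfl⟩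
      exact hinj (Function.invFunOn_mem h2) hu (Function.invFunOn_eq h2)
    simp only [c', h1]
  have hsum : ∀ n : ℕ, ∑ w ∈ V.image yP, (c' w : ℚ) * Pool.Agent.TH507.HS.hs w (n + 1) =
      ∑ u ∈ V, (c u : ℚ) * Pool.Agent.TH507.HS.hs (yP u) (n + 1) := by
    intro n
    rw [Finset.sum_image fun u hu v hv h => hinj hu hv h]
    exact Finset.sum_congr rfl fun u hu => by rw [hc' u hu]
  have hA : ∀ m ≤ M, ∑ v ∈ V, (c v : ℝ) * Aw (v ++ [true]) m = 0 := by
    intro m hm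
    have h1 : ∑ v ∈ V, (c v : ℝ) * Aw (v ++ [true]) m =
        ∑ n ∈ Finset.range (m + 1), Aw [true] n * ∑ v ∈ V, (c v : ℝ) * Mm v n m := by
      simp_rw [Finset.mul_sum]
      rw [Finset.sum_comm]
      refine Finset.sum_congr rfl fun v _ => ?_
      rw [Aw_append v [true] (by simp) (m + 1) m (Nat.lt_succ_self m), Finset.mul_sum]
      exact Finset.sum_congr rfl fun n _ => by ring
    rw [h1]
    refine Finset.sum_eq_zero fun n hn => ?_
    rcases Nat.eq_zero_or_pos n with rfl | hn0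
    · rw [Aw_zero_of_lt [true] 0 (by simp), zero_mul]
    · have h2 := Finset.mem_range.1 hn
      obtain ⟨i, rfl⟩ : ∃ i, m = n + i := ⟨m - n, by omega⟩
      rw [hc n hn0 i (by omega), mul_zero]
  intro u hu
  have h1 := hM (fun w => (c' w : ℚ)) (fun n hn => by
    rw [hsum]
    have h2 : ∑ u ∈ V, (c u : ℝ) * H (decA 0 (u ++ [true])) n = 0 := by
      have h3 : ∑ u ∈ V, (c u : ℝ) * H (decA 0 (u ++ [true])) n =
          ∑ k ∈ Finset.range (n + 1), ∑ x ∈ V, (c x : ℝ) * Aw (x ++ [true]) k := by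
        rw [Finset.sum_comm]
        exact Finset.sum_congr rfl fun u _ => by rw [← Finset.mul_sum, sum_Aw]
      rw [h3]
      exact Finset.sum_eq_zero fun k hk => hA k (by have := Finset.mem_range.1 hk; omega)
    have h4 : ((∑ u ∈ V, (c u : ℚ) * Pool.Agent.TH507.HS.hs (yP u) (n + 1) : ℚ) : ℝ) = 0 := by
      rw [← h2]
      push_cast
      exact Finset.sum_congr rfl fun u _ => by rw [← H_nat, nat_yP]
    exact_mod_cast h4) (yP u) (Finset.mem_image_of_mem _ hu)
  rw [hc' u hu] at h1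
  exact_mod_cast h1

lemma arith1 {v T Θ X M2 d L ρ1 κ2 : ℝ} {E B : ℕ} (hv : 0 ≤ v) (hΘ : 0 ≤ Θ) (hX : 0 ≤ X) (hd : 0 < d)
    (hM2 : 0 ≤ M2) (hTd : T ≤ d) (hXd : X ≤ M2 * d) (hB : B = E + 2)
    (hκ2 : κ2 = ρ1 / (8 * v * Θ * M2 ^ E + 1)) (hL : d ^ B ≤ κ2 * L) :
    8 * (v * T * Θ) * X ^ E * d ≤ L * ρ1 := by
  have h2 : X ^ E ≤ M2 ^ E * d ^ E := by
    rw [← mul_pow]
    exact pow_le_pow_left₀ hX hXd E
  have h0 : 0 < 8 * v * Θ * M2 ^ E + 1 := by positivity
  calc 8 * (v * T * Θ) * X ^ E * d ≤ 8 * (v * d * Θ) * (M2 ^ E * d ^ E) * d := by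
        refine mul_le_mul_of_nonneg_right ?_ hd.le
        refine mul_le_mul ?_ h2 (by positivity) (by positivity)
        refine mul_le_mul_of_nonneg_left ?_ (by norm_num)
        exact mul_le_mul_of_nonneg_right (mul_le_mul_of_nonneg_left hTd hv) hΘ
    _ = (8 * v * Θ * M2 ^ E) * d ^ B := by
        rw [hB]
        ring
    _ ≤ (8 * v * Θ * M2 ^ E + 1) * (κ2 * L) :=
        mul_le_mul (by linarith) hL (by positivity) (by positivity)
    _ = L * ρ1 := by
        rw [hκ2]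
        field_simp

lemma arith2 {X Y M2 d ρ1 κ3 x : ℝ} {E B : ℕ} (hX : 0 ≤ X) (hY : 0 < Y) (hd : 1 ≤ d) (hM2 : 0 < M2)
    (hρ : 0 ≤ ρ1) (hB : B = E + 2) (hXY : X * Y ≤ M2 ^ E * d ^ E) (hx : 0 ≤ x)
    (hκ3 : κ3 = ρ1 / (8 * M2 ^ E)) :
    κ3 * (d ^ B)⁻¹ * (2 * X) * x ≤ ρ1 / (4 * d) * Y⁻¹ * x := by
  refine mul_le_mul_of_nonneg_right ?_ hx
  have hd0 : 0 < d := by linarith
  have hκ0 : 0 ≤ κ3 := by rw [hκ3]; positivity
  calc κ3 * (d ^ B)⁻¹ * (2 * X) = κ3 * (d ^ B)⁻¹ * 2 * (X * Y) * Y⁻¹ := by field_simp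
    _ ≤ κ3 * (d ^ B)⁻¹ * 2 * (M2 ^ E * d ^ E) * Y⁻¹ :=
        mul_le_mul_of_nonneg_right (mul_le_mul_of_nonneg_left hXY (by positivity)) (by positivity)
    _ = ρ1 / (4 * (d * d)) * Y⁻¹ := by
        rw [hκ3, hB, pow_add]
        field_simp
        ring
    _ ≤ ρ1 / (4 * d) * Y⁻¹ := by
        refine mul_le_mul_of_nonneg_right ?_ (by positivity)
        refine div_le_div_of_nonneg_left hρ (by positivity) ?_
        nlinarith

theorem engine {ι : Type} [Fintype ι] (θ : ι → ℝ) {κ0 c0 : ℝ} (hκ0 : 0 ≤ κ0) (hc0 : 0 < c0)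
    (hmeas : ∀ q : ι → ℤ, q ≠ 0 → ∀ T : ℝ, 1 ≤ T → (∀ i, |(q i : ℝ)| ≤ T) → c0 ≤ T ^ κ0 * |∑ i, (q i : ℝ) * θ i|)
    (V : Finset (List Bool)) :
    ∃ κ : ℝ, 0 < κ ∧ ∃ B M : ℕ, ∀ s : List Bool, true ∈ s → ∀ c : List Bool → ι → ℤ,
      (∀ v ∈ V, ∀ i, |(c v i : ℝ)| ≤ κ * (s.count true : ℝ) ^ (1 / (1 + κ0))) → (∃ v ∈ V, ∃ i, c v i ≠ 0) →
      ∀ L : ℝ, (s.count true : ℝ) ^ B ≤ κ * L → ∀ ω : ℕ → ℝ, (∀ m, 0 ≤ ω m) →
      (∀ m, 1 ≤ m → ω (m + 1) * (L + m + 1) ≤ ((m : ℝ) + 1) * ω m) → ∀ S S' : ℝ,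
      HasSum (fun m => ω m * ∑ v ∈ V, (∑ i, (c v i : ℝ) * θ i) * Aw (v ++ s) m) S →
      HasSum (fun m => ω m * Aw (List.replicate M true ++ s) m) S' →
      κ * ((s.count true : ℝ) ^ B)⁻¹ * S' ≤ |S| := by
  classical
  obtain ⟨M, hM⟩ := indep V
  set W : ℕ := V.sup List.length with hW
  choose! Q hQ using fun (v : List Bool) (hv : v ∈ V) (i : ℕ) => exists_poly v W i (Finset.le_sup (f := List.length) hv)
  set N : ℕ := ∑ v ∈ V, ∑ i ∈ Finset.range (M + 1), (Q v i).natDegree with hN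
  have hNdeg : ∀ v ∈ V, ∀ i ≤ M, (Q v i).natDegree ≤ N := by
    intro v hv i hi
    calc (Q v i).natDegree ≤ ∑ i ∈ Finset.range (M + 1), (Q v i).natDegree :=
          Finset.single_le_sum (f := fun i => (Q v i).natDegree) (fun _ _ => Nat.zero_le _) (Finset.mem_range.2 (by omega))
      _ ≤ N := Finset.single_le_sum (f := fun v => ∑ i ∈ Finset.range (M + 1), (Q v i).natDegree)
          (fun _ _ => Nat.zero_le _) hv
  set C1 : ℝ := ∑ i ∈ Finset.range (M + 1), ∑ k ∈ Finset.range (N + 1), ∑ v ∈ V, |((Q v i).coeff k : ℝ)| + 1 with hC1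
  have hC1a : ∀ i ≤ M, ∀ k, ∑ v ∈ V, |((Q v i).coeff k : ℝ)| ≤ C1 := by
    intro i hi k
    have hnn : ∀ i k, 0 ≤ ∑ v ∈ V, |((Q v i).coeff k : ℝ)| := fun i k => Finset.sum_nonneg fun _ _ => abs_nonneg _
    rcases Nat.lt_or_ge N k with hk | hk
    · rw [Finset.sum_eq_zero fun v hv => by
        rw [Polynomial.coeff_eq_zero_of_natDegree_lt ((hNdeg v hv i hi).trans_lt hk), Int.cast_zero, abs_zero]]
      have : 0 ≤ ∑ i ∈ Finset.range (M + 1), ∑ k ∈ Finset.range (N + 1), ∑ v ∈ V, |((Q v i).coeff k : ℝ)| :=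
        Finset.sum_nonneg fun i _ => Finset.sum_nonneg fun k _ => hnn i k
      linarith
    · have h1 := Finset.single_le_sum (f := fun k => ∑ v ∈ V, |((Q v i).coeff k : ℝ)|) (fun k _ => hnn i k)
        (Finset.mem_range.2 (by omega : k < N + 1))
      have h2 := Finset.single_le_sum (f := fun i => ∑ k ∈ Finset.range (N + 1), ∑ v ∈ V, |((Q v i).coeff k : ℝ)|)
        (fun i _ => Finset.sum_nonneg fun k _ => hnn i k) (Finset.mem_range.2 (by omega : i < M + 1))
      exact h1.trans (h2.trans (by linarith))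
  have hC11 : 1 ≤ C1 := by
    have : 0 ≤ ∑ i ∈ Finset.range (M + 1), ∑ k ∈ Finset.range (N + 1), ∑ v ∈ V, |((Q v i).coeff k : ℝ)| :=
      Finset.sum_nonneg fun i _ => Finset.sum_nonneg fun k _ => Finset.sum_nonneg fun _ _ => abs_nonneg _
    linarith
  have hC10 : 0 < C1 := by linarith
  set Θ : ℝ := ∑ i, |θ i| with hΘ
  have hΘ0 : 0 ≤ Θ := Finset.sum_nonneg fun i _ => abs_nonneg _
  set ρ1 : ℝ := c0 / C1 ^ κ0 with hρ1
  have hC1κ : 0 < C1 ^ κ0 := Real.rpow_pos_of_pos hC10 _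
  have hρ10 : 0 < ρ1 := by rw [hρ1]; positivity
  set E : ℕ := M + 3 + (M + 1) * W with hE
  set B : ℕ := E + 2 with hB
  set κ1 : ℝ := c0 / (2 * C1 ^ (1 + κ0) * (Θ * N + 1)) with hκ1
  have hC1κ1 : 0 < C1 ^ (1 + κ0) := Real.rpow_pos_of_pos hC10 _
  have hκ10 : 0 < κ1 := by rw [hκ1]; positivity
  set κ2 : ℝ := ρ1 / (8 * V.card * Θ * ((M : ℝ) + 2) ^ E + 1) with hκ2
  have hκ20 : 0 < κ2 := by rw [hκ2]; positivity
  set κ3 : ℝ := ρ1 / (8 * ((M : ℝ) + 2) ^ E) with hκ3
  have hκ30 : 0 < κ3 := by rw [hκ3]; positivity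
  set κ : ℝ := min (min (1 / 14) κ1) (min κ2 κ3) with hκ
  have hκp : 0 < κ := lt_min (lt_min (by norm_num) hκ10) (lt_min hκ20 hκ30)
  have hκa : κ ≤ 1 / 14 := (min_le_left _ _).trans (min_le_left _ _)
  have hκb : κ ≤ κ1 := (min_le_left _ _).trans (min_le_right _ _)
  have hκc : κ ≤ κ2 := (min_le_right _ _).trans (min_le_left _ _)
  have hκd : κ ≤ κ3 := (min_le_right _ _).trans (min_le_right _ _)
  refine ⟨κ, hκp, B, M, ?_⟩
  intro s hs c hc hne L hL ω h0 hω S S' hS hS'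
  set d : ℕ := s.count true with hd
  have hd1 : 1 ≤ d := List.count_pos_iff.2 hs
  have hdr : (1 : ℝ) ≤ d := by exact_mod_cast hd1
  have hd0 : (0 : ℝ) < d := by linarith
  set γ : ℝ := 1 / (1 + κ0) with hγ
  have hγ0 : 0 < γ := by rw [hγ]; positivity
  have hγκ : γ * (1 + κ0) = 1 := by rw [hγ]; field_simp
  set T : ℝ := κ * (d : ℝ) ^ γ with hT
  have hT1 : 1 ≤ T := by
    obtain ⟨v, hv, i, hi⟩ := hne
    refine le_trans ?_ (hc v hv i)
    rw [← Int.cast_abs]
    exact_mod_cast Int.one_le_abs hi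
  have hT0 : 0 < T := by linarith
  have hTd : T ≤ d := by
    calc T ≤ 1 * (d : ℝ) ^ γ := mul_le_mul_of_nonneg_right (hκa.trans (by norm_num)) (by positivity)
      _ ≤ (d : ℝ) ^ (1 : ℝ) := by
          rw [one_mul]
          refine Real.rpow_le_rpow_of_exponent_le hdr ?_
          rw [hγ, div_le_one (by positivity)]
          linarith
      _ = d := Real.rpow_one _
  have hTκ : T ^ κ0 ≤ d := by
    calc T ^ κ0 ≤ ((d : ℝ) ^ γ) ^ κ0 := by
          refine Real.rpow_le_rpow hT0.le ?_ hκ0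
          exact mul_le_of_le_one_left (by positivity) (hκa.trans (by norm_num))
      _ = (d : ℝ) ^ (γ * κ0) := (Real.rpow_mul hd0.le _ _).symm
      _ ≤ (d : ℝ) ^ (1 : ℝ) := Real.rpow_le_rpow_of_exponent_le hdr (by
          have h : γ * κ0 = 1 - γ := by rw [← hγκ]; ring
          rw [h]
          linarith only [hγ0])
      _ = d := Real.rpow_one _
  have hTκ1 : T ^ (1 + κ0) ≤ κ * d := by
    rw [hT, Real.mul_rpow hκp.le (by positivity), ← Real.rpow_mul hd0.le, hγκ, Real.rpow_one]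
    refine mul_le_mul_of_nonneg_right ?_ hd0.le
    calc κ ^ (1 + κ0) ≤ κ ^ (1 : ℝ) :=
          Real.rpow_le_rpow_of_exponent_ge hκp (hκa.trans (by norm_num)) (by linarith)
      _ = κ := Real.rpow_one _
  -- the coefficients
  set ct : List Bool → ℝ := fun v => ∑ i, (c v i : ℝ) * θ i with hct
  have hctB : ∀ v ∈ V, |ct v| ≤ T * Θ := by
    intro v hv
    refine (Finset.abs_sum_le_sum_abs _ _).trans ?_
    rw [hΘ, Finset.mul_sum]
    refine Finset.sum_le_sum fun i _ => ?_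
    rw [abs_mul]
    exact mul_le_mul_of_nonneg_right (hc v hv i) (abs_nonneg _)
  set z : ℕ → ℕ → ι → ℤ := fun i k l => ∑ v ∈ V, c v l * (Q v i).coeff k with hz
  have hzB : ∀ i ≤ M, ∀ k l, |(z i k l : ℝ)| ≤ C1 * T := by
    intro i hi k l
    rw [hz]
    push_cast
    refine (Finset.abs_sum_le_sum_abs _ _).trans ?_
    rw [mul_comm]
    refine le_trans ?_ (mul_le_mul_of_nonneg_left (hC1a i hi k) hT0.le)
    rw [Finset.mul_sum]
    refine Finset.sum_le_sum fun v hv => ?_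
    rw [abs_mul]
    exact mul_le_mul_of_nonneg_right (hc v hv l) (abs_nonneg _)
  set P : ℕ → Polynomial ℝ := fun i => ∑ v ∈ V, Polynomial.C (ct v) * (Q v i).map (Int.castRingHom ℝ) with hP
  have hPcoeff : ∀ i k, (P i).coeff k = ∑ l, (z i k l : ℝ) * θ l := by
    intro i k
    simp only [hP, hz, hct, Polynomial.finsetSum_coeff, Polynomial.coeff_C_mul, Polynomial.coeff_map, eq_intCast]
    push_cast
    simp_rw [Finset.sum_mul]
    rw [Finset.sum_comm]
    exact Finset.sum_congr rfl fun l _ => Finset.sum_congr rfl fun v _ => by ring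
  have hPeval : ∀ i n : ℕ, 1 ≤ n → (P i).eval (n : ℝ) =
      (∑ v ∈ V, ct v * Mm v n (n + i)) * (∏ l ∈ Finset.range (i + 1), ((n + l : ℕ) : ℝ)) ^ W := by
    intro i n hn
    rw [hP]
    simp only [Polynomial.eval_finsetSum, Polynomial.eval_mul, Polynomial.eval_C, Polynomial.eval_intCast_map]
    rw [Finset.sum_mul]
    refine Finset.sum_congr rfl fun v hv => ?_
    have h1 := hQ v hv i n hn
    have h2 : Polynomial.eval (n : ℝ) ((Q v i).map (Int.castRingHom ℝ)) = ((Polynomial.eval (n : ℤ) (Q v i) : ℤ) : ℝ) := by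
      have := Polynomial.eval_intCast_map (Int.castRingHom ℝ) (Q v i) (n : ℤ)
      simpa using this
    rw [h2, h1]
    ring
  have hD0 : ∀ i n : ℕ, 1 ≤ n → 0 < ∏ l ∈ Finset.range (i + 1), ((n + l : ℕ) : ℝ) := by
    intro i n hn
    refine Finset.prod_pos fun l _ => ?_
    exact_mod_cast (by omega : 0 < n + l)
  -- lower bound of the coefficients
  set ρ : ℝ := c0 / (C1 * T) ^ κ0 with hρ
  have hCT1 : 1 ≤ C1 * T := one_le_mul_of_one_le_of_one_le hC11 hT1
  have hCTκ : 0 < (C1 * T) ^ κ0 := Real.rpow_pos_of_pos (by linarith) _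
  have hρ0 : 0 < ρ := by rw [hρ]; positivity
  have hρρ1 : ρ1 / d ≤ ρ := by
    rw [hρ1, hρ, div_div, Real.mul_rpow hC10.le hT0.le]
    exact div_le_div_of_nonneg_left hc0.le (by positivity) (mul_le_mul_of_nonneg_left hTκ hC1κ.le)
  have hcoef : ∀ i ≤ M, ∀ k, (P i).coeff k ≠ 0 → ρ ≤ |(P i).coeff k| := by
    intro i hi k hk
    have hz0 : z i k ≠ 0 := by
      intro h
      apply hk
      rw [hPcoeff, h]
      simp
    have h1 := hmeas (z i k) hz0 (C1 * T) hCT1 (hzB i hi k)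
    rw [← hPcoeff] at h1
    rw [hρ, div_le_iff₀ hCTκ, mul_comm]
    exact h1
  -- a nonzero polynomial
  have hex : ∃ i, i ≤ M ∧ P i ≠ 0 := by
    by_contra hcon
    push Not at hcon
    obtain ⟨v, hv, l, hl⟩ := hne
    apply hl
    refine hM (fun v => c v l) (fun n hn i hi => ?_) v hv
    have h1 : ∀ k, z i k l = 0 := by
      intro k
      by_contra h
      have hz0 : z i k ≠ 0 := fun h' => h (by rw [h']; rfl)
      have h2 := hmeas (z i k) hz0 (C1 * T) hCT1 (hzB i hi k)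
      rw [← hPcoeff, hcon i hi, Polynomial.coeff_zero, abs_zero, mul_zero] at h2
      linarith
    have h2 : ∑ v ∈ V, Polynomial.C (c v l) * Q v i = 0 := by
      ext k
      rw [Polynomial.finsetSum_coeff, Polynomial.coeff_zero]
      simp_rw [Polynomial.coeff_C_mul]
      exact h1 k
    have h3 : ∑ v ∈ V, c v l * (Q v i).eval (n : ℤ) = 0 := by
      have h2' := congrArg (Polynomial.eval (n : ℤ)) h2
      simpa [Polynomial.eval_finsetSum] using h2'
    have h4 : (∑ v ∈ V, (c v l : ℝ) * Mm v n (n + i)) * (∏ l ∈ Finset.range (i + 1), ((n + l : ℕ) : ℝ)) ^ W = 0 := by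
      rw [Finset.sum_mul]
      have h5 : ((∑ v ∈ V, c v l * (Q v i).eval (n : ℤ) : ℤ) : ℝ) = 0 := by rw [h3]; simp
      rw [← h5, Int.cast_sum]
      refine Finset.sum_congr rfl fun v hv => ?_
      rw [Int.cast_mul, hQ v hv i n hn, mul_assoc]
    rcases mul_eq_zero.1 h4 with h5 | h5
    · exact h5
    · exact absurd h5 (pow_pos (hD0 i n hn) W).ne'
  have hi0 := Nat.find_spec hex
  have hmin : ∀ i < Nat.find hex, P i = 0 := by
    intro i hi
    have h1 := Nat.find_min hex hi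
    by_contra h2
    exact h1 ⟨hi.le.trans hi0.1, h2⟩
  set i0 := Nat.find hex with hi0def
  have hF0 : ∀ i < i0, ∀ n, 1 ≤ n → ∑ v ∈ V, ct v * Mm v n (n + i) = 0 := by
    intro i hi n hn
    have h1 := hPeval i n hn
    rw [hmin i hi, Polynomial.eval_zero] at h1
    rcases mul_eq_zero.1 h1.symm with h5 | h5
    · exact h5
    · exact absurd h5 (pow_pos (hD0 i n hn) W).ne'
  -- the sequence
  set G : ℕ → ℝ := fun m => ∑ v ∈ V, ct v * Aw (v ++ s) m with hG
  have hGeq : ∀ m, G m = ∑ n ∈ Finset.range (m + 1), Aw s n * ∑ v ∈ V, ct v * Mm v n m := by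
    intro m
    simp only [hG]
    simp_rw [Finset.mul_sum]
    rw [Finset.sum_comm]
    refine Finset.sum_congr rfl fun v _ => ?_
    rw [Aw_append v s hs (m + 1) m (Nat.lt_succ_self m), Finset.mul_sum]
    exact Finset.sum_congr rfl fun n _ => by ring
  have hterm : ∀ m ≤ d + i0, ∀ n ∈ Finset.range (m + 1), (n ≠ d ∨ m < d + i0) →
      Aw s n * ∑ v ∈ V, ct v * Mm v n m = 0 := by
    intro m hm n hn hor
    rcases Nat.lt_or_ge n d with hnd | hnd
    · rw [Aw_zero_of_lt s n hnd, zero_mul]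
    · have h2 := Finset.mem_range.1 hn
      obtain ⟨i, rfl⟩ : ∃ i, m = n + i := ⟨m - n, by omega⟩
      rw [hF0 i (by rcases hor with h | h <;> omega) n (by omega), mul_zero]
  have hG0 : ∀ m < d + i0, G m = 0 := by
    intro m hm
    rw [hGeq]
    exact Finset.sum_eq_zero fun n hn => hterm m hm.le n hn (Or.inr hm)
  have hGd : G (d + i0) = Aw s d * ∑ v ∈ V, ct v * Mm v d (d + i0) := by
    rw [hGeq]
    refine Finset.sum_eq_single d (fun n hn hnd => hterm (d + i0) le_rfl n hn (Or.inl hnd)) ?_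
    intro h
    exact absurd (Finset.mem_range.2 (by omega)) h
  have hSd : 0 < Aw s d := Aw_first_pos hs
  -- lower bound of the first value
  have hPlow : ρ / 2 ≤ |(P i0).eval (d : ℝ)| := by
    refine poly_low (P i0) N ?_ (C := C1 * T * Θ) (fun k => ?_) hρ0 (hcoef i0 hi0.1 _ ?_) hdr ?_
    · rw [hP]
      refine Polynomial.natDegree_sum_le_of_forall_le _ _ fun v hv => ?_
      refine (Polynomial.natDegree_C_mul_le _ _).trans (Polynomial.natDegree_map_le.trans (hNdeg v hv i0 hi0.1))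
    · rw [hPcoeff]
      refine (Finset.abs_sum_le_sum_abs _ _).trans ?_
      rw [hΘ, Finset.mul_sum]
      refine Finset.sum_le_sum fun l _ => ?_
      rw [abs_mul]
      exact mul_le_mul_of_nonneg_right (hzB i0 hi0.1 k l) (abs_nonneg _)
    · exact Polynomial.leadingCoeff_ne_zero.2 hi0.2
    · rw [hρ, div_mul_eq_mul_div, le_div_iff₀ hCTκ]
      have h1 : 2 * (C1 * T * Θ) * N * (C1 * T) ^ κ0 = 2 * (Θ * N) * (C1 ^ (1 + κ0) * T ^ (1 + κ0)) := by
        rw [Real.rpow_add hC10, Real.rpow_add hT0, Real.rpow_one, Real.rpow_one, Real.mul_rpow hC10.le hT0.le]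
        ring
      rw [h1]
      calc 2 * (Θ * N) * (C1 ^ (1 + κ0) * T ^ (1 + κ0)) ≤ 2 * (Θ * N) * (C1 ^ (1 + κ0) * (κ1 * d)) := by
            refine mul_le_mul_of_nonneg_left (mul_le_mul_of_nonneg_left ?_ hC1κ1.le) (by positivity)
            exact hTκ1.trans (mul_le_mul_of_nonneg_right hκb hd0.le)
        _ = (2 * C1 ^ (1 + κ0) * (Θ * N)) * κ1 * d := by ring
        _ ≤ (2 * C1 ^ (1 + κ0) * (Θ * N + 1)) * κ1 * d := by
            refine mul_le_mul_of_nonneg_right (mul_le_mul_of_nonneg_right ?_ hκ10.le) hd0.le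
            exact mul_le_mul_of_nonneg_left (le_add_of_nonneg_right zero_le_one) (by positivity)
        _ = c0 * d := by
            rw [hκ1]
            field_simp
  set X : ℝ := ((d + M + 1 : ℕ) : ℝ) with hX
  have hX1 : 1 ≤ X := by rw [hX]; exact_mod_cast (by omega : 1 ≤ d + M + 1)
  have hX0 : 0 < X := by linarith
  have hXd : X ≤ ((M : ℝ) + 2) * d := by
    have h1 : d + M + 1 ≤ (M + 2) * d := by
      have : (M + 1) * 1 ≤ (M + 1) * d := Nat.mul_le_mul_left _ hd1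
      have h2 : (M + 2) * d = (M + 1) * d + d := by ring
      omega
    rw [hX]
    exact_mod_cast h1
  have hDX : (∏ l ∈ Finset.range (i0 + 1), ((d + l : ℕ) : ℝ)) ^ W ≤ X ^ ((M + 1) * W) := by
    rw [pow_mul]
    refine pow_le_pow_left₀ (hD0 i0 d hd1).le ?_ W
    calc ∏ l ∈ Finset.range (i0 + 1), ((d + l : ℕ) : ℝ) ≤ ∏ _l ∈ Finset.range (i0 + 1), X := by
          refine Finset.prod_le_prod (fun l _ => Nat.cast_nonneg _) fun l hl => ?_
          rw [hX]
          have := Finset.mem_range.1 hl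
          have := hi0.1
          exact_mod_cast (by omega : d + l ≤ d + M + 1)
      _ = X ^ (i0 + 1) := by simp
      _ ≤ X ^ (M + 1) := pow_le_pow_right₀ hX1 (by have := hi0.1; omega)
  set g : ℝ := Aw s d * (ρ1 / (2 * d) * (X ^ ((M + 1) * W))⁻¹) with hg
  have hglow : g ≤ |G (d + i0)| := by
    rw [hGd, abs_mul, abs_of_pos hSd, hg]
    refine mul_le_mul_of_nonneg_left ?_ hSd.le
    have h1 := hPeval i0 d hd1
    have h2 : |(P i0).eval (d : ℝ)| ≤ |∑ v ∈ V, ct v * Mm v d (d + i0)| * X ^ ((M + 1) * W) := by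
      rw [h1, abs_mul, abs_of_pos (pow_pos (hD0 i0 d hd1) W)]
      exact mul_le_mul_of_nonneg_left hDX (abs_nonneg _)
    rw [← div_eq_mul_inv, div_le_iff₀ (by positivity)]
    refine le_trans ?_ (hPlow.trans h2)
    calc ρ1 / (2 * d) = (ρ1 / d) / 2 := by field_simp
      _ ≤ ρ / 2 := by linarith
  have hGB : ∀ m, |G m| ≤ (V.card * T * Θ * Aw s d) * (m.choose d : ℝ) := by
    intro m
    refine (Finset.abs_sum_le_sum_abs _ _).trans ?_
    have h1 : ∀ v ∈ V, |ct v * Aw (v ++ s) m| ≤ T * Θ * ((m.choose d : ℝ) * Aw s d) := by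
      intro v hv
      rw [abs_mul, abs_of_nonneg (Aw_nonneg _ _)]
      exact mul_le_mul (hctB v hv) (Aw_append_le v s hs m) (Aw_nonneg _ _) (by positivity)
    refine (Finset.sum_le_sum h1).trans ?_
    rw [Finset.sum_const, nsmul_eq_mul]
    exact le_of_eq (by ring)
  have hLpos : 0 < L := by
    have h1 : (0 : ℝ) < (d : ℝ) ^ B := by positivity
    have h2 : 0 < κ * L := lt_of_lt_of_le h1 hL
    exact (mul_pos_iff_of_pos_left hκp).1 h2
  have hL14 : 14 * (d : ℝ) ^ 2 ≤ L := by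
    have h1 : (d : ℝ) ^ 2 ≤ (d : ℝ) ^ B := pow_le_pow_right₀ hdr (by omega)
    have h2 : κ * L ≤ 1 / 14 * L := mul_le_mul_of_nonneg_right hκa hLpos.le
    linarith
  have hLg : 4 * (V.card * T * Θ * Aw s d) * ((d + M + 1 : ℕ) : ℝ) ^ (M + 3) ≤ L * g := by
    have h1 : 8 * (V.card * T * Θ) * X ^ E * d ≤ L * ρ1 :=
      arith1 (Nat.cast_nonneg _) hΘ0 hX0.le hd0 (by positivity) hTd hXd hB hκ2
        (hL.trans (mul_le_mul_of_nonneg_right hκc hLpos.le))
    have hXE : X ^ E = X ^ (M + 3) * X ^ ((M + 1) * W) := by rw [← pow_add]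
    have h3 : L * g = (L * ρ1) * (Aw s d * (1 / (2 * d) * (X ^ ((M + 1) * W))⁻¹)) := by
      rw [hg]
      field_simp
    rw [h3]
    refine le_trans (le_of_eq ?_) (mul_le_mul_of_nonneg_right h1 (by positivity))
    rw [hXE]
    field_simp
    ring
  have hlow := lower_sum hd1 hL14 h0 hω hi0.1 (G := G) (A := V.card * T * Θ * Aw s d) (by positivity) hGB hG0 hglow hLg hS
  -- the comparison
  have hup := upper_sum hd1 hL14 h0 hω M (G := fun m => Aw (List.replicate M true ++ s) m) hSd.le (fun m => by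
      rw [abs_of_nonneg (Aw_nonneg _ _), mul_comm]
      exact Aw_append_le _ s hs m) (fun m hm => by
      refine Aw_zero_of_lt _ m ?_
      rw [List.count_append, List.count_replicate_self]
      omega) hS'
  have hanti : ω (d + M) ≤ ω (d + i0) := omega_anti hLpos.le h0 hω (by omega) (by have := hi0.1; omega)
  have hdMX : ((d + M : ℕ) : ℝ) ≤ X := by rw [hX]; exact_mod_cast Nat.le_succ _
  have hw := h0 (d + M)
  have h5 : κ3 * ((d : ℝ) ^ B)⁻¹ * (Aw s d * (2 * X ^ (M + 1)) * ω (d + M)) ≤ g / 2 * ω (d + M) := by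
    have h7 : X ^ (M + 1) * X ^ ((M + 1) * W) ≤ ((M : ℝ) + 2) ^ E * (d : ℝ) ^ E := by
      rw [← pow_add, ← mul_pow]
      exact (pow_le_pow_left₀ hX0.le hXd _).trans (pow_le_pow_right₀ (hX1.trans hXd) (by omega))
    have h6 := arith2 (κ3 := κ3) (x := Aw s d * ω (d + M)) (pow_nonneg hX0.le (M + 1)) (pow_pos hX0 ((M + 1) * W)) hdr
      (by positivity) hρ10.le hB h7 (mul_nonneg hSd.le hw) hκ3
    calc κ3 * ((d : ℝ) ^ B)⁻¹ * (Aw s d * (2 * X ^ (M + 1)) * ω (d + M))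
        = κ3 * ((d : ℝ) ^ B)⁻¹ * (2 * X ^ (M + 1)) * (Aw s d * ω (d + M)) := by ring
      _ ≤ ρ1 / (4 * d) * (X ^ ((M + 1) * W))⁻¹ * (Aw s d * ω (d + M)) := h6
      _ = g / 2 * ω (d + M) := by
          rw [hg]
          field_simp
          ring
  have hS'le : S' ≤ Aw s d * (2 * X ^ (M + 1)) * ω (d + M) := by
    refine (le_abs_self _).trans (hup.trans ?_)
    refine mul_le_mul_of_nonneg_right ?_ hw
    refine mul_le_mul_of_nonneg_left ?_ hSd.le
    have := pow_le_pow_left₀ (Nat.cast_nonneg _) hdMX (M + 1)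
    linarith
  have hg0 : 0 ≤ g := by rw [hg]; positivity
  have hS'0 : 0 ≤ S' := hS'.nonneg fun m => mul_nonneg (h0 m) (Aw_nonneg _ _)
  calc κ * ((d : ℝ) ^ B)⁻¹ * S' ≤ κ3 * ((d : ℝ) ^ B)⁻¹ * S' :=
        mul_le_mul_of_nonneg_right (mul_le_mul_of_nonneg_right hκd (by positivity)) hS'0
    _ ≤ κ3 * ((d : ℝ) ^ B)⁻¹ * (Aw s d * (2 * X ^ (M + 1)) * ω (d + M)) :=
        mul_le_mul_of_nonneg_left hS'le (by positivity)
    _ ≤ g / 2 * ω (d + M) := h5
    _ ≤ g / 2 * ω (d + i0) := mul_le_mul_of_nonneg_left hanti (by linarith)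
    _ ≤ |S| := hlow

end Pool.Agent.K7.H51.MZ
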