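import Mathlib
import Pool.Agent.K7.H51.MZ.Core

/-!
# The words `v s` with coefficients in a family of numbers whose small linear forms have a gap
-/

set_option autoImplicit false

namespace Pool.Agent.K7.H51.MZ

open Filter Topology

/-- a system of linear equations with integer coefficients without nonzero integer solution has no nonzero real solution -/
lemma real_of_int {α β : Type} (V : Finset α) (r : α → β → ℤ)
    (h : ∀ c : α → ℤ, (∀ b, ∑ v ∈ V, c v * r v b = 0) → ∀ v ∈ V, c v = 0) :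
    ∀ y : α → ℝ, (∀ b, ∑ v ∈ V, y v * (r v b : ℝ) = 0) → ∀ v ∈ V, y v = 0 := by
  classical
  intro y hy v hv
  rw [← Module.forall_dual_apply_eq_zero_iff ℚ]
  intro φ
  let D : ℕ := ∏ u ∈ V, (φ (y u)).den
  have hD : D ≠ 0 := Finset.prod_ne_zero_iff.2 fun u _ => (φ (y u)).den_nz
  have hm : ∀ u ∈ V, ∃ m : ℤ, (D : ℚ) * φ (y u) = m := by
    intro u hu
    obtain ⟨e, he⟩ := Finset.dvd_prod_of_mem (fun u => (φ (y u)).den) hu
    refine ⟨e * (φ (y u)).num, ?_⟩
    have h3 := Rat.mul_den_eq_num (φ (y u))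
    have he' : D = (φ (y u)).den * e := he
    rw [he']
    push_cast
    rw [← h3]
    ring
  choose! m hm using hm
  have h1 := h m (fun b => ?_) v hv
  · have h2 := hm v hv
    rw [h1, Int.cast_zero] at h2
    rcases mul_eq_zero.1 h2 with h3 | h3
    · exact absurd (by exact_mod_cast h3) hD
    · exact h3
  · have h2 : ((∑ u ∈ V, m u * r u b : ℤ) : ℚ) = D * φ (∑ u ∈ V, y u * (r u b : ℝ)) := by
      rw [map_sum, Finset.mul_sum]
      push_cast
      refine Finset.sum_congr rfl fun u hu => ?_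
      have h3 : y u * (r u b : ℝ) = (r u b : ℚ) • y u := by
        rw [Rat.smul_def]
        push_cast
        ring
      rw [h3, map_smul, smul_eq_mul, ← hm u hu]
      ring
    rw [hy b, map_zero, mul_zero] at h2
    exact_mod_cast h2

lemma setup (V : Finset (List Bool)) : ∃ (M W N : ℕ) (C1 : ℝ) (Q : List Bool → ℕ → Polynomial ℤ), 1 ≤ C1 ∧
    (∀ v ∈ V, ∀ i n : ℕ, 1 ≤ n → (((Q v i).eval (n : ℤ) : ℤ) : ℝ) =
      Mm v n (n + i) * (∏ l ∈ Finset.range (i + 1), ((n + l : ℕ) : ℝ)) ^ W) ∧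
    (∀ v ∈ V, ∀ i ≤ M, (Q v i).natDegree ≤ N) ∧
    (∀ i ≤ M, ∀ k, ∑ v ∈ V, |((Q v i).coeff k : ℝ)| ≤ C1) ∧
    (∀ y : List Bool → ℝ, (∀ i ≤ M, ∀ k, ∑ v ∈ V, y v * ((Q v i).coeff k : ℝ) = 0) → ∀ v ∈ V, y v = 0) := by
  classical
  obtain ⟨M, hM⟩ := indep V
  set W : ℕ := V.sup List.length with hW
  choose! Q hQ using fun (v : List Bool) (hv : v ∈ V) (i : ℕ) => exists_poly v W i (Finset.le_sup (f := List.length) hv)
  set N : ℕ := ∑ v ∈ V, ∑ i ∈ Finset.range (M + 1), (Q v i).natDegree with hN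
  have hNdeg : ∀ v ∈ V, ∀ i ≤ M, (Q v i).natDegree ≤ N := by
    intro v hv i hi
    calc (Q v i).natDegree ≤ ∑ i ∈ Finset.range (M + 1), (Q v i).natDegree :=
          Finset.single_le_sum (f := fun i => (Q v i).natDegree) (fun _ _ => Nat.zero_le _) (Finset.mem_range.2 (by omega))
      _ ≤ N := Finset.single_le_sum (f := fun v => ∑ i ∈ Finset.range (M + 1), (Q v i).natDegree)
          (fun _ _ => Nat.zero_le _) hv
  set C1 : ℝ := ∑ i ∈ Finset.range (M + 1), ∑ k ∈ Finset.range (N + 1), ∑ v ∈ V, |((Q v i).coeff k : ℝ)| + 1 with hC1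
  have hC1a : ∀ i ≤ M, ∀ k, ∑ v ∈ V, |((Q v i).coeff k : ℝ)| ≤ C1 := by
    intro i hi k
    have hnn : ∀ i k, 0 ≤ ∑ v ∈ V, |((Q v i).coeff k : ℝ)| := fun i k => Finset.sum_nonneg fun _ _ => abs_nonneg _
    rcases Nat.lt_or_ge N k with hk | hk
    · rw [Finset.sum_eq_zero fun v hv => by
        rw [Polynomial.coeff_eq_zero_of_natDegree_lt ((hNdeg v hv i hi).trans_lt hk), Int.cast_zero, abs_zero]]
      have : 0 ≤ ∑ i ∈ Finset.range (M + 1), ∑ k ∈ Finset.range (N + 1), ∑ v ∈ V, |((Q v i).coeff k : ℝ)| :=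
        Finset.sum_nonneg fun i _ => Finset.sum_nonneg fun k _ => hnn i k
      linarith
    · have h1 := Finset.single_le_sum (f := fun k => ∑ v ∈ V, |((Q v i).coeff k : ℝ)|) (fun k _ => hnn i k)
        (Finset.mem_range.2 (by omega : k < N + 1))
      have h2 := Finset.single_le_sum (f := fun i => ∑ k ∈ Finset.range (N + 1), ∑ v ∈ V, |((Q v i).coeff k : ℝ)|)
        (fun i _ => Finset.sum_nonneg fun k _ => hnn i k) (Finset.mem_range.2 (by omega : i < M + 1))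
      exact h1.trans (h2.trans (by linarith))
  have hC11 : 1 ≤ C1 := by
    have : 0 ≤ ∑ i ∈ Finset.range (M + 1), ∑ k ∈ Finset.range (N + 1), ∑ v ∈ V, |((Q v i).coeff k : ℝ)| :=
      Finset.sum_nonneg fun i _ => Finset.sum_nonneg fun k _ => Finset.sum_nonneg fun _ _ => abs_nonneg _
    linarith
  refine ⟨M, W, N, C1, Q, hC11, hQ, hNdeg, hC1a, ?_⟩
  have hD0 : ∀ i n : ℕ, 1 ≤ n → 0 < ∏ l ∈ Finset.range (i + 1), ((n + l : ℕ) : ℝ) := by
    intro i n hn
    refine Finset.prod_pos fun l _ => ?_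
    exact_mod_cast (by omega : 0 < n + l)
  have hint : ∀ c : List Bool → ℤ, (∀ b : Fin (M + 1) × ℕ, ∑ v ∈ V, c v * (Q v b.1).coeff b.2 = 0) →
      ∀ v ∈ V, c v = 0 := by
    intro c hc
    refine hM c fun n hn i hi => ?_
    have h2 : ∑ v ∈ V, Polynomial.C (c v) * Q v i = 0 := by
      ext k
      rw [Polynomial.finsetSum_coeff, Polynomial.coeff_zero]
      simp_rw [Polynomial.coeff_C_mul]
      exact hc (⟨i, by omega⟩, k)
    have h3 : ∑ v ∈ V, c v * (Q v i).eval (n : ℤ) = 0 := by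
      have h2' := congrArg (Polynomial.eval (n : ℤ)) h2
      simpa [Polynomial.eval_finsetSum] using h2'
    have h4 : (∑ v ∈ V, (c v : ℝ) * Mm v n (n + i)) * (∏ l ∈ Finset.range (i + 1), ((n + l : ℕ) : ℝ)) ^ W = 0 := by
      rw [Finset.sum_mul]
      have h5 : ((∑ v ∈ V, c v * (Q v i).eval (n : ℤ) : ℤ) : ℝ) = 0 := by rw [h3]; simp
      rw [← h5, Int.cast_sum]
      refine Finset.sum_congr rfl fun v hv => ?_
      rw [Int.cast_mul, hQ v hv i n hn, mul_assoc]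
    rcases mul_eq_zero.1 h4 with h5 | h5
    · exact h5
    · exact absurd h5 (pow_pos (hD0 i n hn) W).ne'
  have h := real_of_int V (fun v (b : Fin (M + 1) × ℕ) => (Q v b.1).coeff b.2) hint
  intro y hy
  exact h y fun b => hy b.1 (by have := b.1.2; omega) b.2

lemma arith3 {X Y M2 d g S S' x : ℝ} {E : ℕ} (hY : 0 < Y) (hd : 1 ≤ d) (hM2 : 0 < M2) (hg : 0 ≤ g)
    (hx : 0 ≤ x) (hXY : X * Y ≤ M2 ^ E * d ^ E) (hS' : S' ≤ 2 * X * x) (hS : g / 4 * Y⁻¹ * x ≤ S) :
    g * (8 * M2 ^ E * d ^ E)⁻¹ * S' ≤ S := by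
  refine le_trans ?_ hS
  have hd0 : 0 < d := by linarith
  calc g * (8 * M2 ^ E * d ^ E)⁻¹ * S' ≤ g * (8 * M2 ^ E * d ^ E)⁻¹ * (2 * X * x) :=
        mul_le_mul_of_nonneg_left hS' (by positivity)
    _ = g * (8 * M2 ^ E * d ^ E)⁻¹ * 2 * (X * Y) * Y⁻¹ * x := by field_simp
    _ ≤ g * (8 * M2 ^ E * d ^ E)⁻¹ * 2 * (M2 ^ E * d ^ E) * Y⁻¹ * x := by
        refine mul_le_mul_of_nonneg_right (mul_le_mul_of_nonneg_right ?_ (by positivity)) hx
        exact mul_le_mul_of_nonneg_left hXY (by positivity)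
    _ = g / 4 * Y⁻¹ * x := by
        field_simp
        ring

theorem engineG (V : Finset (List Bool)) : ∃ C : ℝ, 1 ≤ C ∧ ∃ B M : ℕ, ∀ {ι : Type} [Fintype ι] (θ : ι → ℝ)
    (T g : ℝ), 0 ≤ T → 0 < g →
      (∀ q : ι → ℤ, (∀ i, |(q i : ℝ)| ≤ C * T) → ∑ i, (q i : ℝ) * θ i = 0 ∨ g ≤ |∑ i, (q i : ℝ) * θ i|) →
      ∀ s : List Bool, true ∈ s → ∀ c : List Bool → ι → ℤ, (∀ v ∈ V, ∀ i, |(c v i : ℝ)| ≤ T) →
      (∃ v ∈ V, ∑ i, (c v i : ℝ) * θ i ≠ 0) → C * (T * ∑ i, |θ i|) ≤ g * (s.count true : ℝ) →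
      ∀ L : ℝ, C * (T * ∑ i, |θ i|) * (s.count true : ℝ) ^ B ≤ g * L → ∀ ω : ℕ → ℝ, (∀ m, 0 ≤ ω m) →
      (∀ m, 1 ≤ m → ω (m + 1) * (L + m + 1) ≤ ((m : ℝ) + 1) * ω m) → ∀ S S' : ℝ,
      HasSum (fun m => ω m * ∑ v ∈ V, (∑ i, (c v i : ℝ) * θ i) * Aw (v ++ s) m) S →
      HasSum (fun m => ω m * Aw (List.replicate M true ++ s) m) S' →
      g * (C * (s.count true : ℝ) ^ B)⁻¹ * S' ≤ |S| := by
  classical
  obtain ⟨M, W, N, C1, Q, hC11, hQ, hNdeg, hC1a, hreal⟩ := setup V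
  set E : ℕ := M + 3 + (M + 1) * W with hE
  set C : ℝ := 14 + 2 * C1 * N + C1 + 8 * V.card * ((M : ℝ) + 2) ^ E + 8 * ((M : ℝ) + 2) ^ E with hC
  have hC10 : 0 < C1 := by linarith
  have hCa : 14 ≤ C := by
    rw [hC]
    have h1 : 0 ≤ 2 * C1 * N := by positivity
    have h2 : 0 ≤ 8 * V.card * ((M : ℝ) + 2) ^ E := by positivity
    have h3 : 0 ≤ 8 * ((M : ℝ) + 2) ^ E := by positivity
    linarith
  have hCb : 2 * C1 * N ≤ C := by
    rw [hC]
    have h2 : 0 ≤ 8 * V.card * ((M : ℝ) + 2) ^ E := by positivity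
    have h3 : 0 ≤ 8 * ((M : ℝ) + 2) ^ E := by positivity
    linarith
  have hCc : C1 ≤ C := by
    rw [hC]
    have h1 : 0 ≤ 2 * C1 * N := by positivity
    have h2 : 0 ≤ 8 * V.card * ((M : ℝ) + 2) ^ E := by positivity
    have h3 : 0 ≤ 8 * ((M : ℝ) + 2) ^ E := by positivity
    linarith
  have hCd : 8 * V.card * ((M : ℝ) + 2) ^ E ≤ C := by
    rw [hC]
    have h1 : 0 ≤ 2 * C1 * N := by positivity
    have h3 : 0 ≤ 8 * ((M : ℝ) + 2) ^ E := by positivity
    linarith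
  have hCe : 8 * ((M : ℝ) + 2) ^ E ≤ C := by
    rw [hC]
    have h1 : 0 ≤ 2 * C1 * N := by positivity
    have h2 : 0 ≤ 8 * V.card * ((M : ℝ) + 2) ^ E := by positivity
    linarith
  have hC0 : 0 < C := by linarith
  clear_value C
  refine ⟨C, by linarith, E + 2, M, ?_⟩
  intro ι _ θ T g hT0 hg hgap s hs c hc hne hd' L hL ω h0 hω S S' hS hS'
  set d : ℕ := s.count true with hd
  have hd1 : 1 ≤ d := List.count_pos_iff.2 hs
  have hdr : (1 : ℝ) ≤ d := by exact_mod_cast hd1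
  have hd0 : (0 : ℝ) < d := by linarith
  set Θ : ℝ := ∑ i, |θ i| with hΘ
  have hΘ0 : 0 ≤ Θ := Finset.sum_nonneg fun i _ => abs_nonneg _
  -- the coefficients
  set ct : List Bool → ℝ := fun v => ∑ i, (c v i : ℝ) * θ i with hct
  have hctB : ∀ v ∈ V, |ct v| ≤ T * Θ := by
    intro v hv
    refine (Finset.abs_sum_le_sum_abs _ _).trans ?_
    rw [hΘ, Finset.mul_sum]
    refine Finset.sum_le_sum fun i _ => ?_
    rw [abs_mul]
    exact mul_le_mul_of_nonneg_right (hc v hv i) (abs_nonneg _)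
  have hgTΘ : g ≤ T * Θ := by
    obtain ⟨v, hv, hv0⟩ := hne
    refine le_trans ?_ (hctB v hv)
    rcases hgap (c v) (fun i => (hc v hv i).trans (le_mul_of_one_le_left hT0 (by linarith))) with h | h
    · exact absurd h hv0
    · exact h
  have hTΘ : 0 < T * Θ := hg.trans_le hgTΘ
  set z : ℕ → ℕ → ι → ℤ := fun i k l => ∑ v ∈ V, c v l * (Q v i).coeff k with hz
  have hzB : ∀ i ≤ M, ∀ k l, |(z i k l : ℝ)| ≤ C1 * T := by
    intro i hi k l
    rw [hz]
    push_cast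
    refine (Finset.abs_sum_le_sum_abs _ _).trans ?_
    rw [mul_comm]
    refine le_trans ?_ (mul_le_mul_of_nonneg_left (hC1a i hi k) hT0)
    rw [Finset.mul_sum]
    refine Finset.sum_le_sum fun v hv => ?_
    rw [abs_mul]
    exact mul_le_mul_of_nonneg_right (hc v hv l) (abs_nonneg _)
  set P : ℕ → Polynomial ℝ := fun i => ∑ v ∈ V, Polynomial.C (ct v) * (Q v i).map (Int.castRingHom ℝ) with hP
  have hPcoeff' : ∀ i k, (P i).coeff k = ∑ v ∈ V, ct v * ((Q v i).coeff k : ℝ) := by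
    intro i k
    simp only [hP, Polynomial.finsetSum_coeff, Polynomial.coeff_C_mul, Polynomial.coeff_map, eq_intCast]
  have hPcoeff : ∀ i k, (P i).coeff k = ∑ l, (z i k l : ℝ) * θ l := by
    intro i k
    rw [hPcoeff']
    simp only [hz, hct]
    push_cast
    simp_rw [Finset.sum_mul]
    rw [Finset.sum_comm]
    exact Finset.sum_congr rfl fun l _ => Finset.sum_congr rfl fun v _ => by ring
  have hPeval : ∀ i n : ℕ, 1 ≤ n → (P i).eval (n : ℝ) =
      (∑ v ∈ V, ct v * Mm v n (n + i)) * (∏ l ∈ Finset.range (i + 1), ((n + l : ℕ) : ℝ)) ^ W := by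
    intro i n hn
    rw [hP]
    simp only [Polynomial.eval_finsetSum, Polynomial.eval_mul, Polynomial.eval_C]
    rw [Finset.sum_mul]
    refine Finset.sum_congr rfl fun v hv => ?_
    have h1 := hQ v hv i n hn
    have h2 : Polynomial.eval (n : ℝ) ((Q v i).map (Int.castRingHom ℝ)) = ((Polynomial.eval (n : ℤ) (Q v i) : ℤ) : ℝ) := by
      simpa using Polynomial.eval_intCast_map (Int.castRingHom ℝ) (Q v i) (n : ℤ)
    rw [h2, h1]
    ring
  have hD0 : ∀ i n : ℕ, 1 ≤ n → 0 < ∏ l ∈ Finset.range (i + 1), ((n + l : ℕ) : ℝ) := by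
    intro i n hn
    refine Finset.prod_pos fun l _ => ?_
    exact_mod_cast (by omega : 0 < n + l)
  -- lower bound of the coefficients
  have hcoef : ∀ i ≤ M, ∀ k, (P i).coeff k ≠ 0 → g ≤ |(P i).coeff k| := by
    intro i hi k hk
    have h1 := hgap (z i k) (fun l => (hzB i hi k l).trans (mul_le_mul_of_nonneg_right hCc hT0))
    rw [← hPcoeff] at h1
    exact h1.resolve_left hk
  -- a nonzero polynomial
  have hex : ∃ i, i ≤ M ∧ P i ≠ 0 := by
    by_contra hcon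
    push Not at hcon
    obtain ⟨v, hv, hv0⟩ := hne
    apply hv0
    refine hreal ct (fun i hi k => ?_) v hv
    rw [← hPcoeff', hcon i hi, Polynomial.coeff_zero]
  have hi0 := Nat.find_spec hex
  have hmin : ∀ i < Nat.find hex, P i = 0 := by
    intro i hi
    have h1 := Nat.find_min hex hi
    by_contra h2
    exact h1 ⟨hi.le.trans hi0.1, h2⟩
  set i0 := Nat.find hex with hi0def
  have hF0 : ∀ i < i0, ∀ n, 1 ≤ n → ∑ v ∈ V, ct v * Mm v n (n + i) = 0 := by
    intro i hi n hn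
    have h1 := hPeval i n hn
    rw [hmin i hi, Polynomial.eval_zero] at h1
    rcases mul_eq_zero.1 h1.symm with h5 | h5
    · exact h5
    · exact absurd h5 (pow_pos (hD0 i n hn) W).ne'
  -- the sequence
  set G : ℕ → ℝ := fun m => ∑ v ∈ V, ct v * Aw (v ++ s) m with hG
  have hGeq : ∀ m, G m = ∑ n ∈ Finset.range (m + 1), Aw s n * ∑ v ∈ V, ct v * Mm v n m := by
    intro m
    simp only [hG]
    simp_rw [Finset.mul_sum]
    rw [Finset.sum_comm]
    refine Finset.sum_congr rfl fun v _ => ?_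
    rw [Aw_append v s hs (m + 1) m (Nat.lt_succ_self m), Finset.mul_sum]
    exact Finset.sum_congr rfl fun n _ => by ring
  have hterm : ∀ m ≤ d + i0, ∀ n ∈ Finset.range (m + 1), (n ≠ d ∨ m < d + i0) →
      Aw s n * ∑ v ∈ V, ct v * Mm v n m = 0 := by
    intro m hm n hn hor
    rcases Nat.lt_or_ge n d with hnd | hnd
    · rw [Aw_zero_of_lt s n hnd, zero_mul]
    · have h2 := Finset.mem_range.1 hn
      obtain ⟨i, rfl⟩ : ∃ i, m = n + i := ⟨m - n, by omega⟩
      rw [hF0 i (by rcases hor with h | h <;> omega) n (by omega), mul_zero]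
  have hG0 : ∀ m < d + i0, G m = 0 := by
    intro m hm
    rw [hGeq]
    exact Finset.sum_eq_zero fun n hn => hterm m hm.le n hn (Or.inr hm)
  have hGd : G (d + i0) = Aw s d * ∑ v ∈ V, ct v * Mm v d (d + i0) := by
    rw [hGeq]
    refine Finset.sum_eq_single d (fun n hn hnd => hterm (d + i0) le_rfl n hn (Or.inl hnd)) ?_
    intro h
    exact absurd (Finset.mem_range.2 (by omega)) h
  have hSd : 0 < Aw s d := Aw_first_pos hs
  -- lower bound of the first value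
  have hPlow : g / 2 ≤ |(P i0).eval (d : ℝ)| := by
    refine poly_low (P i0) N ?_ (C := C1 * T * Θ) (fun k => ?_) hg (hcoef i0 hi0.1 _ ?_) hdr ?_
    · rw [hP]
      refine Polynomial.natDegree_sum_le_of_forall_le _ _ fun v hv => ?_
      refine (Polynomial.natDegree_C_mul_le _ _).trans (Polynomial.natDegree_map_le.trans (hNdeg v hv i0 hi0.1))
    · rw [hPcoeff]
      refine (Finset.abs_sum_le_sum_abs _ _).trans ?_
      rw [hΘ, Finset.mul_sum]
      refine Finset.sum_le_sum fun l _ => ?_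
      rw [abs_mul]
      exact mul_le_mul_of_nonneg_right (hzB i0 hi0.1 k l) (abs_nonneg _)
    · exact Polynomial.leadingCoeff_ne_zero.2 hi0.2
    · calc 2 * (C1 * T * Θ) * N = (2 * C1 * N) * (T * Θ) := by ring
        _ ≤ C * (T * Θ) := mul_le_mul_of_nonneg_right hCb hTΘ.le
        _ ≤ g * d := hd'
  set X : ℝ := ((d + M + 1 : ℕ) : ℝ) with hX
  have hX1 : 1 ≤ X := by rw [hX]; exact_mod_cast (by omega : 1 ≤ d + M + 1)
  have hX0 : 0 < X := by linarith
  have hXd : X ≤ ((M : ℝ) + 2) * d := by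
    have h1 : d + M + 1 ≤ (M + 2) * d := by
      have : (M + 1) * 1 ≤ (M + 1) * d := Nat.mul_le_mul_left _ hd1
      have h2 : (M + 2) * d = (M + 1) * d + d := by ring
      omega
    rw [hX]
    exact_mod_cast h1
  have hDX : (∏ l ∈ Finset.range (i0 + 1), ((d + l : ℕ) : ℝ)) ^ W ≤ X ^ ((M + 1) * W) := by
    rw [pow_mul]
    refine pow_le_pow_left₀ (hD0 i0 d hd1).le ?_ W
    calc ∏ l ∈ Finset.range (i0 + 1), ((d + l : ℕ) : ℝ) ≤ ∏ _l ∈ Finset.range (i0 + 1), X := by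
          refine Finset.prod_le_prod (fun l _ => Nat.cast_nonneg _) fun l hl => ?_
          rw [hX]
          have := Finset.mem_range.1 hl
          have := hi0.1
          exact_mod_cast (by omega : d + l ≤ d + M + 1)
      _ = X ^ (i0 + 1) := by simp
      _ ≤ X ^ (M + 1) := pow_le_pow_right₀ hX1 (by have := hi0.1; omega)
  set g1 : ℝ := Aw s d * (g / 2 * (X ^ ((M + 1) * W))⁻¹) with hg1
  have hglow : g1 ≤ |G (d + i0)| := by
    rw [hGd, abs_mul, abs_of_pos hSd, hg1]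
    refine mul_le_mul_of_nonneg_left ?_ hSd.le
    have h1 := hPeval i0 d hd1
    have h2 : |(P i0).eval (d : ℝ)| ≤ |∑ v ∈ V, ct v * Mm v d (d + i0)| * X ^ ((M + 1) * W) := by
      rw [h1, abs_mul, abs_of_pos (pow_pos (hD0 i0 d hd1) W)]
      exact mul_le_mul_of_nonneg_left hDX (abs_nonneg _)
    rw [← div_eq_mul_inv, div_le_iff₀ (by positivity)]
    exact hPlow.trans h2
  have hGB : ∀ m, |G m| ≤ (V.card * (T * Θ) * Aw s d) * (m.choose d : ℝ) := by
    intro m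
    refine (Finset.abs_sum_le_sum_abs _ _).trans ?_
    have h1 : ∀ v ∈ V, |ct v * Aw (v ++ s) m| ≤ T * Θ * ((m.choose d : ℝ) * Aw s d) := by
      intro v hv
      rw [abs_mul, abs_of_nonneg (Aw_nonneg _ _)]
      exact mul_le_mul (hctB v hv) (Aw_append_le v s hs m) (Aw_nonneg _ _) hTΘ.le
    refine (Finset.sum_le_sum h1).trans ?_
    rw [Finset.sum_const, nsmul_eq_mul]
    exact le_of_eq (by ring)
  have hCL : C * (d : ℝ) ^ (E + 2) ≤ L := by
    have h1 : (0 : ℝ) ≤ (d : ℝ) ^ (E + 2) := by positivity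
    have h2 : g * (C * (d : ℝ) ^ (E + 2)) ≤ g * L := by
      calc g * (C * (d : ℝ) ^ (E + 2)) ≤ T * Θ * (C * (d : ℝ) ^ (E + 2)) :=
            mul_le_mul_of_nonneg_right hgTΘ (mul_nonneg hC0.le h1)
        _ = C * (T * Θ) * (d : ℝ) ^ (E + 2) := by ring
        _ ≤ g * L := hL
    exact le_of_mul_le_mul_left h2 hg
  have hLpos : 0 < L := lt_of_lt_of_le (mul_pos hC0 (by positivity)) hCL
  have hL14 : 14 * (d : ℝ) ^ 2 ≤ L := by
    have h1 : (d : ℝ) ^ 2 ≤ (d : ℝ) ^ (E + 2) := pow_le_pow_right₀ hdr (by omega)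
    exact (mul_le_mul hCa h1 (by positivity) hC0.le).trans hCL
  have hLg : 4 * (V.card * (T * Θ) * Aw s d) * ((d + M + 1 : ℕ) : ℝ) ^ (M + 3) ≤ L * g1 := by
    have h1 : 8 * (V.card * (T * Θ)) * X ^ E ≤ L * g := by
      have h2 : X ^ E ≤ ((M : ℝ) + 2) ^ E * (d : ℝ) ^ E := by
        rw [← mul_pow]
        exact pow_le_pow_left₀ hX0.le hXd E
      have h3 : (d : ℝ) ^ E ≤ (d : ℝ) ^ (E + 2) := pow_le_pow_right₀ hdr (by omega)
      calc 8 * (V.card * (T * Θ)) * X ^ E ≤ 8 * (V.card * (T * Θ)) * (((M : ℝ) + 2) ^ E * (d : ℝ) ^ E) :=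
            mul_le_mul_of_nonneg_left h2 (by positivity)
        _ = (8 * V.card * ((M : ℝ) + 2) ^ E) * (T * Θ) * (d : ℝ) ^ E := by ring
        _ ≤ C * (T * Θ) * (d : ℝ) ^ (E + 2) :=
            mul_le_mul (mul_le_mul_of_nonneg_right hCd hTΘ.le) h3 (by positivity) (mul_nonneg hC0.le hTΘ.le)
        _ ≤ g * L := hL
        _ = L * g := mul_comm _ _
    have hXE : X ^ E = X ^ (M + 3) * X ^ ((M + 1) * W) := by rw [← pow_add]
    have h3 : L * g1 = (L * g) * (Aw s d * (1 / 2 * (X ^ ((M + 1) * W))⁻¹)) := by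
      rw [hg1]
      ring
    rw [h3]
    refine le_trans (le_of_eq ?_) (mul_le_mul_of_nonneg_right h1 (by positivity))
    rw [hXE, ← hX]
    field_simp
    ring
  have hlow := lower_sum hd1 hL14 h0 hω hi0.1 (G := G) (A := V.card * (T * Θ) * Aw s d) (by positivity) hGB hG0 hglow hLg hS
  -- the comparison
  have hup := upper_sum hd1 hL14 h0 hω M (G := fun m => Aw (List.replicate M true ++ s) m) hSd.le (fun m => by
      rw [abs_of_nonneg (Aw_nonneg _ _), mul_comm]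
      exact Aw_append_le _ s hs m) (fun m hm => by
      refine Aw_zero_of_lt _ m ?_
      rw [List.count_append, List.count_replicate_self]
      omega) hS'
  have hanti : ω (d + M) ≤ ω (d + i0) := omega_anti hLpos.le h0 hω (by omega) (by have := hi0.1; omega)
  have hdMX : ((d + M : ℕ) : ℝ) ≤ X := by rw [hX]; exact_mod_cast Nat.le_succ _
  have hw := h0 (d + M)
  have hxn : 0 ≤ Aw s d * ω (d + M) := mul_nonneg hSd.le hw
  have hS'le : S' ≤ 2 * X ^ (M + 1) * (Aw s d * ω (d + M)) := by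
    refine (le_abs_self _).trans (hup.trans ?_)
    calc Aw s d * (2 * ((d + M : ℕ) : ℝ) ^ (M + 1)) * ω (d + M)
        = 2 * ((d + M : ℕ) : ℝ) ^ (M + 1) * (Aw s d * ω (d + M)) := by ring
      _ ≤ 2 * X ^ (M + 1) * (Aw s d * ω (d + M)) := by
          refine mul_le_mul_of_nonneg_right (mul_le_mul_of_nonneg_left ?_ (by norm_num)) hxn
          exact pow_le_pow_left₀ (Nat.cast_nonneg _) hdMX (M + 1)
  have hSlow : g / 4 * (X ^ ((M + 1) * W))⁻¹ * (Aw s d * ω (d + M)) ≤ |S| := by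
    refine le_trans ?_ hlow
    calc g / 4 * (X ^ ((M + 1) * W))⁻¹ * (Aw s d * ω (d + M)) = g1 / 2 * ω (d + M) := by
          rw [hg1]
          ring
      _ ≤ g1 / 2 * ω (d + i0) := mul_le_mul_of_nonneg_left hanti (by rw [hg1]; positivity)
  have h7 : X ^ (M + 1) * X ^ ((M + 1) * W) ≤ ((M : ℝ) + 2) ^ E * (d : ℝ) ^ E := by
    rw [← pow_add, ← mul_pow]
    exact (pow_le_pow_left₀ hX0.le hXd _).trans (pow_le_pow_right₀ (hX1.trans hXd) (by omega))
  have h8 := arith3 (E := E) (pow_pos hX0 ((M + 1) * W)) hdr (by positivity) hg.le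
    hxn h7 hS'le hSlow
  have hS'0 : 0 ≤ S' := hS'.nonneg fun m => mul_nonneg (h0 m) (Aw_nonneg _ _)
  refine le_trans (mul_le_mul_of_nonneg_right ?_ hS'0) h8
  refine mul_le_mul_of_nonneg_left ?_ hg.le
  refine inv_anti₀ (by positivity) ?_
  exact mul_le_mul hCe (pow_le_pow_right₀ hdr (by omega)) (by positivity) hC0.le

end Pool.Agent.K7.H51.MZ
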