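import Mathlib
import Pool.Agent.K7.H51.MZ.Mat
import Pool.Agent.K7.H57.Suf.Gen

/-!
# The value of a product of words as a double sum over the connector
-/

set_option autoImplicit false

namespace Pool.Agent.K7.H51.MZ

open Filter Topology
open Pool.Agent.H447R2.MZ (H H_nil H_cons H_cons_zero H_cons_succ H_nonneg Adm val tendsto_H H_le_val)
open Pool.Agent.K7.H57.Suf (hR hR_nonneg sum_hR bump dw cn cn_pos cn_succ cn_symm Wx Ex Ex_hasSum Ex_nonneg val_hasSum')

/-- the word of an index -/
def wordT : List ℕ → List Bool
  | [] => []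
  | k :: l => List.replicate (k - 1) false ++ true :: wordT l

lemma wordT_append (u v : List ℕ) : wordT (u ++ v) = wordT u ++ wordT v := by
  induction u with
  | nil => rfl
  | cons k l ih => rw [List.cons_append, wordT, wordT, ih, List.append_assoc, List.cons_append]

lemma decA_rep (j : ℕ) : ∀ (c : ℕ) (w : List Bool), decA c (List.replicate j false ++ w) = decA (c + j) w := by
  induction j with
  | zero => intro c w; rfl
  | succ j ih => intro c w; rw [List.replicate_succ, List.cons_append, decA, ih]; congr 1; ring

lemma decA_wordT (u : List ℕ) (hu : ∀ x ∈ u, 1 ≤ x) (w : List Bool) : decA 0 (wordT u ++ w) = u ++ decA 0 w := by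
  induction u with
  | nil => rfl
  | cons k l ih =>
    have hk : 1 ≤ k := hu k List.mem_cons_self
    rw [wordT, List.append_assoc, decA_rep, List.cons_append, decA, ih fun x hx => hu x (List.mem_cons_of_mem _ hx),
      List.cons_append]
    congr 1
    omega

lemma decA_add {w : List Bool} {a : ℕ} {t : List ℕ} (h : decA 0 w = a :: t) (j : ℕ) : decA j w = (a + j) :: t := by
  induction j with
  | zero => exact h
  | succ j ih => rw [decA_succ, ih, bump]; rfl

/-- the dual word -/
def dual (w : List Bool) : List Bool := (w.map not).reverse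

lemma dual_append (p q : List Bool) : dual (p ++ q) = dual q ++ dual p := by
  rw [dual, List.map_append, List.reverse_append, dual, dual]

lemma dual_dual (p : List Bool) : dual (dual p) = p := by
  unfold dual
  rw [List.map_reverse, List.reverse_reverse, List.map_map]
  conv_rhs => rw [← List.map_id p]
  congr 1
  funext b
  simp

lemma dual_inj {p q : List Bool} (h : dual p = dual q) : p = q := by
  rw [← dual_dual p, h, dual_dual]

lemma dual_count (w : List Bool) : (dual w).count true = w.count false := by
  rw [dual, List.count_reverse]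
  induction w with
  | nil => rfl
  | cons b w ih => cases b <;> simp [ih]

lemma dual_rep_false (j : ℕ) : dual (List.replicate j false) = List.replicate j true := by
  rw [dual, List.map_replicate, List.reverse_replicate]; rfl

lemma decA_true_rep (i : ℕ) (w : List Bool) : decA 0 (List.replicate i true ++ w) = List.replicate i 1 ++ decA 0 w := by
  induction i with
  | zero => rfl
  | succ i ih => rw [List.replicate_succ, List.cons_append, decA_true, ih, List.replicate_succ, List.cons_append]

lemma decA_dual (u : List ℕ) (hu : ∀ x ∈ u, 1 ≤ x) : decA 0 (dual (wordT u)) = dw u.reverse := by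
  induction u using List.reverseRecOn with
  | nil => rfl
  | append_singleton q a ih =>
    rw [wordT_append, dual_append, List.reverse_append, List.reverse_singleton, List.singleton_append, dw,
      ← ih fun x hx => hu x (List.mem_append_left _ hx)]
    have h1 : dual (wordT [a]) = false :: List.replicate (a - 1) true := by
      rw [wordT, wordT, dual]
      simp
    rw [h1, List.cons_append, decA_false, decA_true_rep]

lemma exists_pair (p : List Bool) : ∃ (u : List ℕ) (j : ℕ), (∀ x ∈ u, 1 ≤ x) ∧
    p = wordT u ++ List.replicate j false := by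
  induction p using List.reverseRecOn with
  | nil => exact ⟨[], 0, by simp, rfl⟩
  | append_singleton p b ih =>
    obtain ⟨u, j, hu, rfl⟩ := ih
    cases b with
    | false => exact ⟨u, j + 1, hu, by rw [List.replicate_succ', List.append_assoc]⟩
    | true =>
      refine ⟨u ++ [j + 1], 0, ?_, ?_⟩
      · intro x hx
        rcases List.mem_append.1 hx with h | h
        · exact hu x h
        · rw [List.mem_singleton.1 h]; omega
      · rw [wordT_append]
        simp [wordT]

lemma adm_pair {u : List ℕ} {j : ℕ} (hu : ∀ x ∈ u, 1 ≤ x) {q : List Bool}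
    (h : false :: q = wordT u ++ List.replicate j false) : Adm u := by
  refine ⟨hu, fun a t hat => ?_⟩
  subst hat
  rw [wordT] at h
  by_contra hlt
  have ha := hu a List.mem_cons_self
  have : a = 1 := by omega
  subst this
  simp at h

/-- words beginning with `x` -/
def BX (p : List Bool) : Prop := ∃ q, p = false :: q

lemma BX.append {p : List Bool} (h : BX p) (v : List Bool) : BX (p ++ v) := by
  obtain ⟨q, rfl⟩ := h
  exact ⟨q ++ v, rfl⟩

lemma BX.mem {p : List Bool} (h : BX p) : false ∈ p := by
  obtain ⟨q, rfl⟩ := h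
  simp

lemma decA_pos' (u : List Bool) : ∀ c, ∀ s ∈ decA c u, 1 ≤ s := by
  induction u with
  | nil => intro c s hs; exact absurd hs List.not_mem_nil
  | cons a u ih =>
    intro c s hs
    cases a with
    | true =>
      rw [decA] at hs
      rcases List.mem_cons.1 hs with rfl | hs
      · exact Nat.le_add_left _ _
      · exact ih 0 s hs
    | false =>
      rw [decA] at hs
      exact ih (c + 1) s hs

lemma adm_decA {w : List Bool} (h : BX w) : Adm (decA 0 w) := by
  obtain ⟨q, rfl⟩ := h
  refine ⟨decA_pos' _ 0, fun a t hat => ?_⟩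
  rw [decA_false] at hat
  have h1 := decA_pos' q 0
  revert hat h1
  generalize decA 0 q = l
  intro hat h1
  cases l with
  | nil => simp [bump] at hat
  | cons b l =>
    rw [bump] at hat
    have := h1 b List.mem_cons_self
    rw [← (List.cons.inj hat).1]
    omega

/-- the weights -/
noncomputable def Ep (p : List Bool) (m : ℕ) : ℝ := ∑' k, Aw (dual p) k * cn m k

lemma Ep_nonneg (p : List Bool) (m : ℕ) : 0 ≤ Ep p m :=
  tsum_nonneg fun _ => mul_nonneg (Aw_nonneg _ _) (cn_pos _ _).le

lemma Ep_aux {p : List Bool} {u : List ℕ} {j : ℕ} (hu : ∀ x ∈ u, 1 ≤ x) (h : p = wordT u ++ List.replicate j false)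
    (hadm : Adm u) {m : ℕ} (hm : 1 ≤ m) : HasSum (fun k => Aw (dual p) k * cn m k) (Ex (u, j) m) := by
  have h1 := Ex_hasSum (x := (u, j)) hadm hm
  have h2 : Wx (u, j) = decA 0 (dual p) := by
    rw [h, dual_append, dual_rep_false, decA_true_rep, decA_dual u hu, Wx]
  rw [h2] at h1
  exact h1

lemma Ep_hasSum {p : List Bool} (hp : BX p) {m : ℕ} (hm : 1 ≤ m) :
    HasSum (fun k => Aw (dual p) k * cn m k) (Ep p m) := by
  obtain ⟨u, j, hu, h⟩ := exists_pair p
  obtain ⟨q, rfl⟩ := hp
  exact (Ep_aux hu h (adm_pair hu h) hm).summable.hasSum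

theorem conn {p s : List Bool} (hp : BX p) (hs : true ∈ s) :
    HasSum (fun m => Ep p m * Aw s m) (val (decA 0 (p ++ s))) := by
  obtain ⟨u, j, hu, h⟩ := exists_pair p
  obtain ⟨a, t, hat⟩ := exists_decA hs
  have hadm := adm_decA (hp.append s)
  have hdec : decA 0 (p ++ s) = u ++ (a + j) :: t := by
    rw [h, List.append_assoc, decA_wordT u hu, decA_rep, zero_add, decA_add hat]
  obtain ⟨q, rfl⟩ := hp
  have hu' := adm_pair hu h
  rw [hdec] at hadm ⊢
  have h1 := val_hasSum' (x := (u, j)) hu' hadm
  rw [← hasSum_nat_add_iff' 1]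
  have h0 : ∑ m ∈ Finset.range 1, Ep (false :: q) m * Aw s m = 0 := by
    rw [Finset.sum_range_one, Aw, hat, hR, mul_zero]
  rw [h0, sub_zero]
  have h2 : (fun n : ℕ => Ep (false :: q) (n + 1) * Aw s (n + 1)) =
      fun n : ℕ => H t n * (((n + 1 : ℕ) : ℝ) ^ a)⁻¹ * Ex (u, j) (n + 1) := by
    funext n
    rw [Ep, (Ep_aux hu h hu' (by omega : 1 ≤ n + 1)).tsum_eq, Aw, hat, hR]
    ring
  rw [h2]
  exact h1

end Pool.Agent.K7.H51.MZ
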