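import Mathlib
import Pool.Agent.K7.H51.MZ.Core
import Pool.Agent.K7.H51.MZ.Two

/-!
# The words `p v s`, `v ∈ V`, with one of `p`, `s` long with respect to the other one
-/

set_option autoImplicit false

namespace Pool.Agent.K7.H51.MZ

open Filter Topology
open Pool.Agent.H447R2.MZ (H Adm val tendsto_H H_le_val)
open Pool.Agent.K7.H57.Suf (cn cn_pos cn_succ cn_symm)

lemma cn_ratio {L : ℝ} {m k : ℕ} (hL : L ≤ m) :
    cn m (k + 1) * (L + k + 1) ≤ ((k : ℝ) + 1) * cn m k := by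
  rw [cn_succ]
  have h3 := (cn_pos m k).le
  have h4 : (((k : ℝ) + 1) / ((m : ℝ) + k + 1)) * (L + k + 1) ≤ (k : ℝ) + 1 := by
    rw [div_mul_eq_mul_div, div_le_iff₀ (by positivity)]
    exact mul_le_mul_of_nonneg_left (by linarith) (by positivity)
  calc cn m k * (((k : ℝ) + 1) / ((m : ℝ) + k + 1)) * (L + k + 1)
      = cn m k * ((((k : ℝ) + 1) / ((m : ℝ) + k + 1)) * (L + k + 1)) := by ring
    _ ≤ cn m k * ((k : ℝ) + 1) := mul_le_mul_of_nonneg_left h4 h3
    _ = ((k : ℝ) + 1) * cn m k := by ring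

lemma Ep_ratio {p : List Bool} (hp : BX p) (m : ℕ) (hm : 1 ≤ m) :
    Ep p (m + 1) * ((p.count false : ℝ) + m + 1) ≤ ((m : ℝ) + 1) * Ep p m := by
  have h1 := (Ep_hasSum hp (by omega : 1 ≤ m + 1)).mul_right ((p.count false : ℝ) + m + 1)
  have h2 := (Ep_hasSum hp hm).mul_left ((m : ℝ) + 1)
  refine hasSum_le (fun k => ?_) h1 h2
  rcases Nat.lt_or_ge k (p.count false) with hk | hk
  · rw [Aw_zero_of_lt _ _ (by rwa [dual_count])]
    simp
  · rw [cn_symm (m + 1) k, cn_symm m k]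
    have h3 := cn_ratio (L := (p.count false : ℝ)) (m := k) (k := m) (by exact_mod_cast hk)
    calc Aw (dual p) k * cn k (m + 1) * ((p.count false : ℝ) + m + 1)
        = Aw (dual p) k * (cn k (m + 1) * ((p.count false : ℝ) + m + 1)) := by ring
      _ ≤ Aw (dual p) k * (((m : ℝ) + 1) * cn k m) := mul_le_mul_of_nonneg_left h3 (Aw_nonneg _ _)
      _ = ((m : ℝ) + 1) * (Aw (dual p) k * cn k m) := by ring

/-- `p` long with respect to `s` -/
theorem main1 {ι : Type} [Fintype ι] (θ : ι → ℝ) {κ0 c0 : ℝ} (hκ0 : 0 ≤ κ0) (hc0 : 0 < c0)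
    (hmeas : ∀ q : ι → ℤ, q ≠ 0 → ∀ T : ℝ, 1 ≤ T → (∀ i, |(q i : ℝ)| ≤ T) → c0 ≤ T ^ κ0 * |∑ i, (q i : ℝ) * θ i|)
    (V : Finset (List Bool)) :
    ∃ κ : ℝ, 0 < κ ∧ ∃ B M : ℕ, ∀ p s : List Bool, BX p → true ∈ s → ∀ c : List Bool → ι → ℤ,
      (∀ v ∈ V, ∀ i, |(c v i : ℝ)| ≤ κ * (s.count true : ℝ) ^ (1 / (1 + κ0))) → (∃ v ∈ V, ∃ i, c v i ≠ 0) →
      (s.count true : ℝ) ^ B ≤ κ * (p.count false : ℝ) →
      κ * ((s.count true : ℝ) ^ B)⁻¹ * val (decA 0 (p ++ (List.replicate M true ++ s))) ≤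
        |∑ v ∈ V, (∑ i, (c v i : ℝ) * θ i) * val (decA 0 (p ++ (v ++ s)))| := by
  obtain ⟨κ, hκ, B, M, h⟩ := engine θ hκ0 hc0 hmeas V
  refine ⟨κ, hκ, B, M, fun p s hp hs c hc hne hL => ?_⟩
  refine h s hs c hc hne (p.count false) hL (Ep p) (Ep_nonneg p) (fun m hm => Ep_ratio hp m hm) _ _ ?_ ?_
  · have h1 : HasSum (fun m => ∑ v ∈ V, (∑ i, (c v i : ℝ) * θ i) * (Ep p m * Aw (v ++ s) m))
        (∑ v ∈ V, (∑ i, (c v i : ℝ) * θ i) * val (decA 0 (p ++ (v ++ s)))) :=
      hasSum_sum fun v _ => (conn hp (List.mem_append_right v hs)).mul_left _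
    have h2 : (fun m => ∑ v ∈ V, (∑ i, (c v i : ℝ) * θ i) * (Ep p m * Aw (v ++ s) m)) =
        fun m => Ep p m * ∑ v ∈ V, (∑ i, (c v i : ℝ) * θ i) * Aw (v ++ s) m := by
      funext m
      rw [Finset.mul_sum]
      exact Finset.sum_congr rfl fun v _ => by ring
    rwa [h2] at h1
  · exact conn hp (List.mem_append_right _ hs)

/-- `s` long with respect to `p` -/
theorem main2 {ι : Type} [Fintype ι] (θ : ι → ℝ) {κ0 c0 : ℝ} (hκ0 : 0 ≤ κ0) (hc0 : 0 < c0)
    (hmeas : ∀ q : ι → ℤ, q ≠ 0 → ∀ T : ℝ, 1 ≤ T → (∀ i, |(q i : ℝ)| ≤ T) → c0 ≤ T ^ κ0 * |∑ i, (q i : ℝ) * θ i|)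
    (V : Finset (List Bool)) :
    ∃ κ : ℝ, 0 < κ ∧ ∃ B M : ℕ, ∀ p s : List Bool, BX p → true ∈ s → ∀ c : List Bool → ι → ℤ,
      (∀ v ∈ V, ∀ i, |(c v i : ℝ)| ≤ κ * (p.count false : ℝ) ^ (1 / (1 + κ0))) → (∃ v ∈ V, ∃ i, c v i ≠ 0) →
      (p.count false : ℝ) ^ B ≤ κ * (s.count true : ℝ) →
      κ * ((p.count false : ℝ) ^ B)⁻¹ * val (decA 0 ((p ++ List.replicate M false) ++ s)) ≤
        |∑ v ∈ V, (∑ i, (c v i : ℝ) * θ i) * val (decA 0 ((p ++ v) ++ s))| := by
  classical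
  obtain ⟨κ, hκ, B, M, h⟩ := engine θ hκ0 hc0 hmeas (V.image dual)
  refine ⟨κ, hκ, B, M, fun p s hp hs c hc hne hL => ?_⟩
  have hinj : Set.InjOn dual (V : Set (List Bool)) := fun _ _ _ _ h => dual_inj h
  have hcnt : (dual p).count true = p.count false := dual_count p
  have hdp : true ∈ dual p := by
    rw [← List.count_pos_iff, hcnt]
    exact List.count_pos_iff.2 hp.mem
  have hs0 : Aw s 0 = 0 := Aw_zero_of_lt s 0 (List.count_pos_iff.2 hs)
  have hterm : ∀ (v : List Bool) (m : ℕ), HasSum (fun k => Aw s m * (Aw (dual (p ++ v)) k * cn m k))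
      (Aw s m * Ep (p ++ v) m) := by
    intro v m
    rcases Nat.eq_zero_or_pos m with rfl | hm
    · rw [hs0]
      simp only [zero_mul]
      exact hasSum_zero
    · exact (Ep_hasSum (hp.append v) hm).mul_left _
  -- the inequality for the partial sums
  have hN : ∀ N : ℕ, κ * ((p.count false : ℝ) ^ B)⁻¹ *
      (∑ m ∈ Finset.range N, Ep (p ++ List.replicate M false) m * Aw s m) ≤
        |∑ v ∈ V, (∑ i, (c v i : ℝ) * θ i) * ∑ m ∈ Finset.range N, Ep (p ++ v) m * Aw s m| := by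
    intro N
    have h1 := h (dual p) hdp (fun w => c (dual w)) (fun w hw i => ?_) ?_ (s.count true) (by rw [hcnt]; exact hL)
      (fun k => ∑ m ∈ Finset.range N, Aw s m * cn m k)
      (fun k => Finset.sum_nonneg fun m _ => mul_nonneg (Aw_nonneg _ _) (cn_pos _ _).le)
      (fun k _ => ?_)
      (∑ v ∈ V, (∑ i, (c v i : ℝ) * θ i) * ∑ m ∈ Finset.range N, Ep (p ++ v) m * Aw s m)
      (∑ m ∈ Finset.range N, Ep (p ++ List.replicate M false) m * Aw s m) ?_ ?_
    · rw [hcnt] at h1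
      exact h1
    · obtain ⟨v, hv, rfl⟩ := Finset.mem_image.1 hw
      rw [dual_dual, hcnt]
      exact hc v hv i
    · obtain ⟨v, hv, i, hi⟩ := hne
      exact ⟨dual v, Finset.mem_image_of_mem _ hv, i, by rw [dual_dual]; exact hi⟩
    · rw [Finset.sum_mul, Finset.mul_sum]
      refine Finset.sum_le_sum fun m _ => ?_
      rcases Nat.lt_or_ge m (s.count true) with hm | hm
      · rw [Aw_zero_of_lt s m hm]
        simp
      · have h3 := cn_ratio (L := (s.count true : ℝ)) (m := m) (k := k) (by exact_mod_cast hm)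
        calc Aw s m * cn m (k + 1) * ((s.count true : ℝ) + k + 1)
            = Aw s m * (cn m (k + 1) * ((s.count true : ℝ) + k + 1)) := by ring
          _ ≤ Aw s m * (((k : ℝ) + 1) * cn m k) := mul_le_mul_of_nonneg_left h3 (Aw_nonneg _ _)
          _ = ((k : ℝ) + 1) * (Aw s m * cn m k) := by ring
    · have h3 : HasSum (fun k => ∑ v ∈ V, (∑ i, (c v i : ℝ) * θ i) *
          ∑ m ∈ Finset.range N, Aw s m * (Aw (dual (p ++ v)) k * cn m k))
          (∑ v ∈ V, (∑ i, (c v i : ℝ) * θ i) * ∑ m ∈ Finset.range N, Aw s m * Ep (p ++ v) m) :=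
        hasSum_sum fun v _ => (hasSum_sum fun m _ => hterm v m).mul_left _
      have h4 : (fun k => ∑ v ∈ V, (∑ i, (c v i : ℝ) * θ i) *
          ∑ m ∈ Finset.range N, Aw s m * (Aw (dual (p ++ v)) k * cn m k)) =
          fun k => (∑ m ∈ Finset.range N, Aw s m * cn m k) *
            ∑ w ∈ V.image dual, (∑ i, (c (dual w) i : ℝ) * θ i) * Aw (w ++ dual p) k := by
        funext k
        rw [Finset.sum_image hinj, Finset.mul_sum]
        refine Finset.sum_congr rfl fun v _ => ?_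
        rw [dual_dual, dual_append]
        generalize (∑ i, (c v i : ℝ) * θ i) = e
        rw [Finset.sum_mul, Finset.mul_sum]
        exact Finset.sum_congr rfl fun m _ => by ring
      have h5 : ∀ v, ∑ m ∈ Finset.range N, Aw s m * Ep (p ++ v) m = ∑ m ∈ Finset.range N, Ep (p ++ v) m * Aw s m :=
        fun v => Finset.sum_congr rfl fun m _ => mul_comm _ _
      rw [h4] at h3
      simp_rw [h5] at h3
      exact h3
    · have h3 : HasSum (fun k => ∑ m ∈ Finset.range N, Aw s m * (Aw (dual (p ++ List.replicate M false)) k * cn m k))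
          (∑ m ∈ Finset.range N, Aw s m * Ep (p ++ List.replicate M false) m) :=
        hasSum_sum fun m _ => hterm _ m
      have h4 : (fun k => ∑ m ∈ Finset.range N, Aw s m * (Aw (dual (p ++ List.replicate M false)) k * cn m k)) =
          fun k => (∑ m ∈ Finset.range N, Aw s m * cn m k) * Aw (List.replicate M true ++ dual p) k := by
        funext k
        rw [dual_append, dual_rep_false, Finset.sum_mul]
        exact Finset.sum_congr rfl fun m _ => by ring
      have h5 : ∑ m ∈ Finset.range N, Aw s m * Ep (p ++ List.replicate M false) m =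
          ∑ m ∈ Finset.range N, Ep (p ++ List.replicate M false) m * Aw s m :=
        Finset.sum_congr rfl fun m _ => mul_comm _ _
      rw [h4, h5] at h3
      exact h3
  have ht : ∀ v : List Bool, Tendsto (fun N => ∑ m ∈ Finset.range N, Ep (p ++ v) m * Aw s m) atTop
      (𝓝 (val (decA 0 ((p ++ v) ++ s)))) := fun v => (conn (hp.append v) hs).tendsto_sum_nat
  exact le_of_tendsto_of_tendsto' ((ht _).const_mul _)
    (tendsto_finsetSum _ fun v _ => (ht v).const_mul _).abs hN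

end Pool.Agent.K7.H51.MZ
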