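import Mathlib
import Pool.Agent.K7.H51.MZ.Gap
import Pool.Agent.K7.H51.MZ.Main

/-!
# The words `p v s` with coefficients in a family of numbers whose small linear forms have a gap
-/

set_option autoImplicit false

namespace Pool.Agent.K7.H51.MZ

open Filter Topology
open Pool.Agent.H447R2.MZ (H Adm val tendsto_H H_le_val)
open Pool.Agent.K7.H57.Suf (cn cn_pos cn_succ cn_symm)

theorem main1G (V : Finset (List Bool)) : ∃ C : ℝ, 1 ≤ C ∧ ∃ B M : ℕ, ∀ {ι : Type} [Fintype ι] (θ : ι → ℝ)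
    (T g : ℝ), 0 ≤ T → 0 < g →
      (∀ q : ι → ℤ, (∀ i, |(q i : ℝ)| ≤ C * T) → ∑ i, (q i : ℝ) * θ i = 0 ∨ g ≤ |∑ i, (q i : ℝ) * θ i|) →
      ∀ p s : List Bool, BX p → true ∈ s → ∀ c : List Bool → ι → ℤ, (∀ v ∈ V, ∀ i, |(c v i : ℝ)| ≤ T) →
      (∃ v ∈ V, ∑ i, (c v i : ℝ) * θ i ≠ 0) → C * (T * ∑ i, |θ i|) ≤ g * (s.count true : ℝ) →
      C * (T * ∑ i, |θ i|) * (s.count true : ℝ) ^ B ≤ g * (p.count false : ℝ) →
      g * (C * (s.count true : ℝ) ^ B)⁻¹ * val (decA 0 (p ++ (List.replicate M true ++ s))) ≤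
        |∑ v ∈ V, (∑ i, (c v i : ℝ) * θ i) * val (decA 0 (p ++ (v ++ s)))| := by
  obtain ⟨C, hC, B, M, h⟩ := engineG V
  refine ⟨C, hC, B, M, ?_⟩
  intro ι _ θ T g hT hg hgap p s hp hs c hc hne hd hL
  refine h θ T g hT hg hgap s hs c hc hne hd (p.count false) hL (Ep p) (Ep_nonneg p)
    (fun m hm => Ep_ratio hp m hm) _ _ ?_ ?_
  · have h1 : HasSum (fun m => ∑ v ∈ V, (∑ i, (c v i : ℝ) * θ i) * (Ep p m * Aw (v ++ s) m))
        (∑ v ∈ V, (∑ i, (c v i : ℝ) * θ i) * val (decA 0 (p ++ (v ++ s)))) :=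
      hasSum_sum fun v _ => (conn hp (List.mem_append_right v hs)).mul_left _
    have h2 : (fun m => ∑ v ∈ V, (∑ i, (c v i : ℝ) * θ i) * (Ep p m * Aw (v ++ s) m)) =
        fun m => Ep p m * ∑ v ∈ V, (∑ i, (c v i : ℝ) * θ i) * Aw (v ++ s) m := by
      funext m
      rw [Finset.mul_sum]
      exact Finset.sum_congr rfl fun v _ => by ring
    rwa [h2] at h1
  · exact conn hp (List.mem_append_right _ hs)

theorem main2G (V : Finset (List Bool)) : ∃ C : ℝ, 1 ≤ C ∧ ∃ B M : ℕ, ∀ {ι : Type} [Fintype ι] (θ : ι → ℝ)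
    (T g : ℝ), 0 ≤ T → 0 < g →
      (∀ q : ι → ℤ, (∀ i, |(q i : ℝ)| ≤ C * T) → ∑ i, (q i : ℝ) * θ i = 0 ∨ g ≤ |∑ i, (q i : ℝ) * θ i|) →
      ∀ p s : List Bool, BX p → true ∈ s → ∀ c : List Bool → ι → ℤ, (∀ v ∈ V, ∀ i, |(c v i : ℝ)| ≤ T) →
      (∃ v ∈ V, ∑ i, (c v i : ℝ) * θ i ≠ 0) → C * (T * ∑ i, |θ i|) ≤ g * (p.count false : ℝ) →
      C * (T * ∑ i, |θ i|) * (p.count false : ℝ) ^ B ≤ g * (s.count true : ℝ) →
      g * (C * (p.count false : ℝ) ^ B)⁻¹ * val (decA 0 ((p ++ List.replicate M false) ++ s)) ≤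
        |∑ v ∈ V, (∑ i, (c v i : ℝ) * θ i) * val (decA 0 ((p ++ v) ++ s))| := by
  classical
  obtain ⟨C, hC, B, M, h⟩ := engineG (V.image dual)
  refine ⟨C, hC, B, M, ?_⟩
  intro ι _ θ T g hT hg hgap p s hp hs c hc hne hd hL
  have hinj : Set.InjOn dual (V : Set (List Bool)) := fun _ _ _ _ h => dual_inj h
  have hcnt : (dual p).count true = p.count false := dual_count p
  have hdp : true ∈ dual p := by
    rw [← List.count_pos_iff, hcnt]
    exact List.count_pos_iff.2 hp.mem
  have hs0 : Aw s 0 = 0 := Aw_zero_of_lt s 0 (List.count_pos_iff.2 hs)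
  have hterm : ∀ (v : List Bool) (m : ℕ), HasSum (fun k => Aw s m * (Aw (dual (p ++ v)) k * cn m k))
      (Aw s m * Ep (p ++ v) m) := by
    intro v m
    rcases Nat.eq_zero_or_pos m with rfl | hm
    · rw [hs0]
      simp only [zero_mul]
      exact hasSum_zero
    · exact (Ep_hasSum (hp.append v) hm).mul_left _
  -- the inequality for the partial sums
  have hN : ∀ N : ℕ, g * (C * (p.count false : ℝ) ^ B)⁻¹ *
      (∑ m ∈ Finset.range N, Ep (p ++ List.replicate M false) m * Aw s m) ≤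
        |∑ v ∈ V, (∑ i, (c v i : ℝ) * θ i) * ∑ m ∈ Finset.range N, Ep (p ++ v) m * Aw s m| := by
    intro N
    have h1 := h θ T g hT hg hgap (dual p) hdp (fun w => c (dual w)) (fun w hw i => ?_) ?_ (by rw [hcnt]; exact hd)
      (s.count true) (by rw [hcnt]; exact hL)
      (fun k => ∑ m ∈ Finset.range N, Aw s m * cn m k)
      (fun k => Finset.sum_nonneg fun m _ => mul_nonneg (Aw_nonneg _ _) (cn_pos _ _).le)
      (fun k _ => ?_)
      (∑ v ∈ V, (∑ i, (c v i : ℝ) * θ i) * ∑ m ∈ Finset.range N, Ep (p ++ v) m * Aw s m)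
      (∑ m ∈ Finset.range N, Ep (p ++ List.replicate M false) m * Aw s m) ?_ ?_
    · rw [hcnt] at h1
      exact h1
    · obtain ⟨v, hv, rfl⟩ := Finset.mem_image.1 hw
      rw [dual_dual]
      exact hc v hv i
    · obtain ⟨v, hv, hi⟩ := hne
      exact ⟨dual v, Finset.mem_image_of_mem _ hv, by rw [dual_dual]; exact hi⟩
    · rw [Finset.sum_mul, Finset.mul_sum]
      refine Finset.sum_le_sum fun m _ => ?_
      rcases Nat.lt_or_ge m (s.count true) with hm | hm
      · rw [Aw_zero_of_lt s m hm]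
        simp
      · have h3 := cn_ratio (L := (s.count true : ℝ)) (m := m) (k := k) (by exact_mod_cast hm)
        calc Aw s m * cn m (k + 1) * ((s.count true : ℝ) + k + 1)
            = Aw s m * (cn m (k + 1) * ((s.count true : ℝ) + k + 1)) := by ring
          _ ≤ Aw s m * (((k : ℝ) + 1) * cn m k) := mul_le_mul_of_nonneg_left h3 (Aw_nonneg _ _)
          _ = ((k : ℝ) + 1) * (Aw s m * cn m k) := by ring
    · have h3 : HasSum (fun k => ∑ v ∈ V, (∑ i, (c v i : ℝ) * θ i) *
          ∑ m ∈ Finset.range N, Aw s m * (Aw (dual (p ++ v)) k * cn m k))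
          (∑ v ∈ V, (∑ i, (c v i : ℝ) * θ i) * ∑ m ∈ Finset.range N, Aw s m * Ep (p ++ v) m) :=
        hasSum_sum fun v _ => (hasSum_sum fun m _ => hterm v m).mul_left _
      have h4 : (fun k => ∑ v ∈ V, (∑ i, (c v i : ℝ) * θ i) *
          ∑ m ∈ Finset.range N, Aw s m * (Aw (dual (p ++ v)) k * cn m k)) =
          fun k => (∑ m ∈ Finset.range N, Aw s m * cn m k) *
            ∑ w ∈ V.image dual, (∑ i, (c (dual w) i : ℝ) * θ i) * Aw (w ++ dual p) k := by
        funext k
        rw [Finset.sum_image hinj, Finset.mul_sum]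
        refine Finset.sum_congr rfl fun v _ => ?_
        rw [dual_dual, dual_append]
        generalize (∑ i, (c v i : ℝ) * θ i) = e
        rw [Finset.sum_mul, Finset.mul_sum]
        exact Finset.sum_congr rfl fun m _ => by ring
      have h5 : ∀ v, ∑ m ∈ Finset.range N, Aw s m * Ep (p ++ v) m = ∑ m ∈ Finset.range N, Ep (p ++ v) m * Aw s m :=
        fun v => Finset.sum_congr rfl fun m _ => mul_comm _ _
      rw [h4] at h3
      simp_rw [h5] at h3
      exact h3
    · have h3 : HasSum (fun k => ∑ m ∈ Finset.range N, Aw s m * (Aw (dual (p ++ List.replicate M false)) k * cn m k))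
          (∑ m ∈ Finset.range N, Aw s m * Ep (p ++ List.replicate M false) m) :=
        hasSum_sum fun m _ => hterm _ m
      have h4 : (fun k => ∑ m ∈ Finset.range N, Aw s m * (Aw (dual (p ++ List.replicate M false)) k * cn m k)) =
          fun k => (∑ m ∈ Finset.range N, Aw s m * cn m k) * Aw (List.replicate M true ++ dual p) k := by
        funext k
        rw [dual_append, dual_rep_false, Finset.sum_mul]
        exact Finset.sum_congr rfl fun m _ => by ring
      have h5 : ∑ m ∈ Finset.range N, Aw s m * Ep (p ++ List.replicate M false) m =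
          ∑ m ∈ Finset.range N, Ep (p ++ List.replicate M false) m * Aw s m :=
        Finset.sum_congr rfl fun m _ => mul_comm _ _
      rw [h4, h5] at h3
      exact h3
  have ht : ∀ v : List Bool, Tendsto (fun N => ∑ m ∈ Finset.range N, Ep (p ++ v) m * Aw s m) atTop
      (𝓝 (val (decA 0 ((p ++ v) ++ s)))) := fun v => (conn (hp.append v) hs).tendsto_sum_nat
  exact le_of_tendsto_of_tendsto' ((ht _).const_mul _)
    (tendsto_finsetSum _ fun v _ => (ht v).const_mul _).abs hN

/-! ### inserting letters -/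

lemma Aw_rep_false (M : ℕ) {s : List Bool} (hs : true ∈ s) (m : ℕ) : Aw (List.replicate M false ++ s) m ≤ Aw s m := by
  induction M with
  | zero => exact le_rfl
  | succ M ih =>
    rw [List.replicate_succ, List.cons_append, Aw_false (List.mem_append_right _ hs)]
    refine le_trans ?_ ih
    rcases Nat.eq_zero_or_pos m with rfl | hm
    · simp only [Nat.cast_zero, inv_zero, zero_mul]
      exact Aw_nonneg _ _
    · refine mul_le_of_le_one_left (Aw_nonneg _ _) ?_
      exact inv_le_one_of_one_le₀ (by exact_mod_cast hm)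

lemma val_ins_x (M : ℕ) {p s : List Bool} (hp : BX p) (hs : true ∈ s) :
    val (decA 0 (p ++ (List.replicate M false ++ s))) ≤ val (decA 0 (p ++ s)) :=
  hasSum_le (fun m => mul_le_mul_of_nonneg_left (Aw_rep_false M hs m) (Ep_nonneg p m))
    (conn hp (List.mem_append_right _ hs)) (conn hp hs)

lemma dual_rep_true (j : ℕ) : dual (List.replicate j true) = List.replicate j false := by
  rw [dual, List.map_replicate, List.reverse_replicate]; rfl

lemma val_ins_y (M : ℕ) {p s : List Bool} (hp : BX p) (hs : true ∈ s) :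
    val (decA 0 ((p ++ List.replicate M true) ++ s)) ≤ val (decA 0 (p ++ s)) := by
  have hs0 : Aw s 0 = 0 := Aw_zero_of_lt s 0 (List.count_pos_iff.2 hs)
  have hdp : true ∈ dual p := by
    rw [← List.count_pos_iff, dual_count]
    exact List.count_pos_iff.2 hp.mem
  refine hasSum_le (fun m => ?_) (conn (hp.append _) hs) (conn hp hs)
  rcases Nat.eq_zero_or_pos m with rfl | hm
  · rw [hs0, mul_zero, mul_zero]
  · refine mul_le_mul_of_nonneg_right ?_ (Aw_nonneg _ _)
    refine hasSum_le (fun k => ?_) (Ep_hasSum (hp.append _) hm) (Ep_hasSum hp hm)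
    rw [dual_append, dual_rep_true]
    exact mul_le_mul_of_nonneg_right (Aw_rep_false M hdp k) (cn_pos _ _).le

end Pool.Agent.K7.H51.MZ
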