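import Mathlib
import Pool.Agent.K7.H51.MZ.MainG

/-!
# The words `p v s`, both cases together
-/

set_option autoImplicit false

namespace Pool.Agent.K7.H51.MZ

open Filter Topology
open Pool.Agent.H447R2.MZ (H Adm val tendsto_H H_le_val)

/-- the value of the word `p y^M x^M s` -/
noncomputable def ins (M : ℕ) (p s : List Bool) : ℝ :=
  val (decA 0 (p ++ (List.replicate M true ++ (List.replicate M false ++ s))))

lemma ins_pos (M : ℕ) {p s : List Bool} (hp : BX p) : 0 < ins M p s :=
  Pool.Agent.K7.H57.Suf.val_pos (adm_decA (hp.append _))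

lemma ins_le1 {M M1 : ℕ} (h : M1 ≤ M) {p s : List Bool} (hp : BX p) (hs : true ∈ s) :
    ins M p s ≤ val (decA 0 (p ++ (List.replicate M1 true ++ s))) := by
  obtain ⟨k, rfl⟩ : ∃ k, M = k + M1 := ⟨M - M1, by omega⟩
  have h1 := val_ins_x (k + M1) (hp.append (List.replicate (k + M1) true)) hs
  have h2 := val_ins_y k hp (List.mem_append_right (List.replicate M1 true) hs)
  unfold ins
  rw [← List.append_assoc]
  refine h1.trans (le_trans (le_of_eq ?_) h2)
  rw [List.replicate_add]
  simp only [List.append_assoc]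

lemma ins_le2 {M M2 : ℕ} (h : M2 ≤ M) {p s : List Bool} (hp : BX p) (hs : true ∈ s) :
    ins M p s ≤ val (decA 0 ((p ++ List.replicate M2 false) ++ s)) := by
  obtain ⟨k, rfl⟩ : ∃ k, M = k + M2 := ⟨M - M2, by omega⟩
  have h1 := val_ins_y (k + M2) hp (List.mem_append_right (List.replicate (k + M2) false) hs)
  have h2 := val_ins_x k hp (List.mem_append_right (List.replicate M2 false) hs)
  unfold ins
  rw [← List.append_assoc]
  refine h1.trans (le_trans (le_of_eq ?_) (h2.trans (le_of_eq ?_)))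
  · rw [List.replicate_add]
    simp only [List.append_assoc]
  · rw [List.append_assoc]

/-- the version for numbers with a measure of linear independence -/
theorem thmA {ι : Type} [Fintype ι] (θ : ι → ℝ) {κ0 c0 : ℝ} (hκ0 : 0 ≤ κ0) (hc0 : 0 < c0)
    (hmeas : ∀ q : ι → ℤ, q ≠ 0 → ∀ T : ℝ, 1 ≤ T → (∀ i, |(q i : ℝ)| ≤ T) → c0 ≤ T ^ κ0 * |∑ i, (q i : ℝ) * θ i|)
    (V : Finset (List Bool)) :
    ∃ κ : ℝ, 0 < κ ∧ ∃ B M : ℕ, ∀ p s : List Bool, BX p → true ∈ s → ∀ c : List Bool → ι → ℤ,
      (∀ v ∈ V, ∀ i, |(c v i : ℝ)| ≤ κ * ((min (p.count false) (s.count true) : ℕ) : ℝ) ^ (1 / (1 + κ0))) →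
      (∃ v ∈ V, ∃ i, c v i ≠ 0) →
      ((min (p.count false) (s.count true) : ℕ) : ℝ) ^ B ≤ κ * ((max (p.count false) (s.count true) : ℕ) : ℝ) →
      κ * (((min (p.count false) (s.count true) : ℕ) : ℝ) ^ B)⁻¹ * ins M p s ≤
        |∑ v ∈ V, (∑ i, (c v i : ℝ) * θ i) * val (decA 0 (p ++ (v ++ s)))| := by
  obtain ⟨κ1, hκ1, B1, M1, h1⟩ := main1 θ hκ0 hc0 hmeas V
  obtain ⟨κ2, hκ2, B2, M2, h2⟩ := main2 θ hκ0 hc0 hmeas V
  refine ⟨min κ1 κ2, lt_min hκ1 hκ2, max B1 B2, max M1 M2, ?_⟩
  intro p s hp hs c hc hne hL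
  have hX1 : 1 ≤ p.count false := List.count_pos_iff.2 hp.mem
  have hY1 : 1 ≤ s.count true := List.count_pos_iff.2 hs
  have hpos := ins_pos (max M1 M2) (s := s) hp
  rcases le_total (s.count true) (p.count false) with hle | hle
  · rw [min_eq_right hle] at hc hL ⊢
    rw [max_eq_left hle] at hL
    have hY : (1 : ℝ) ≤ (s.count true : ℝ) := by exact_mod_cast hY1
    have h := h1 p s hp hs c (fun v hv i => (hc v hv i).trans (mul_le_mul_of_nonneg_right (min_le_left _ _)
      (by positivity))) hne (by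
        calc (s.count true : ℝ) ^ B1 ≤ (s.count true : ℝ) ^ (max B1 B2) := pow_le_pow_right₀ hY (le_max_left _ _)
          _ ≤ min κ1 κ2 * (p.count false : ℝ) := hL
          _ ≤ κ1 * (p.count false : ℝ) := mul_le_mul_of_nonneg_right (min_le_left _ _) (Nat.cast_nonneg _))
    refine le_trans ?_ h
    refine mul_le_mul ?_ (ins_le1 (le_max_left _ _) hp hs) hpos.le (by positivity)
    refine mul_le_mul (min_le_left _ _) ?_ (by positivity) hκ1.le
    exact inv_anti₀ (by positivity) (pow_le_pow_right₀ hY (le_max_left _ _))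
  · rw [min_eq_left hle] at hc hL ⊢
    rw [max_eq_right hle] at hL
    have hX : (1 : ℝ) ≤ (p.count false : ℝ) := by exact_mod_cast hX1
    have h := h2 p s hp hs c (fun v hv i => (hc v hv i).trans (mul_le_mul_of_nonneg_right (min_le_right _ _)
      (by positivity))) hne (by
        calc (p.count false : ℝ) ^ B2 ≤ (p.count false : ℝ) ^ (max B1 B2) := pow_le_pow_right₀ hX (le_max_right _ _)
          _ ≤ min κ1 κ2 * (s.count true : ℝ) := hL
          _ ≤ κ2 * (s.count true : ℝ) := mul_le_mul_of_nonneg_right (min_le_right _ _) (Nat.cast_nonneg _))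
    simp only [List.append_assoc] at h
    have h3 := ins_le2 (le_max_right M1 M2) hp hs
    simp only [List.append_assoc] at h3
    refine le_trans ?_ h
    refine mul_le_mul ?_ h3 hpos.le (by positivity)
    refine mul_le_mul (min_le_right _ _) ?_ (by positivity) hκ2.le
    exact inv_anti₀ (by positivity) (pow_le_pow_right₀ hX (le_max_right _ _))

/-- the version for families of numbers whose small linear forms have a gap -/
theorem thmG (V : Finset (List Bool)) : ∃ C : ℝ, 1 ≤ C ∧ ∃ B M : ℕ, ∀ {ι : Type} [Fintype ι] (θ : ι → ℝ)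
    (T g : ℝ), 0 ≤ T → 0 < g →
      (∀ q : ι → ℤ, (∀ i, |(q i : ℝ)| ≤ C * T) → ∑ i, (q i : ℝ) * θ i = 0 ∨ g ≤ |∑ i, (q i : ℝ) * θ i|) →
      ∀ p s : List Bool, BX p → true ∈ s → ∀ c : List Bool → ι → ℤ, (∀ v ∈ V, ∀ i, |(c v i : ℝ)| ≤ T) →
      (∃ v ∈ V, ∑ i, (c v i : ℝ) * θ i ≠ 0) →
      C * (T * ∑ i, |θ i|) ≤ g * ((min (p.count false) (s.count true) : ℕ) : ℝ) →
      C * (T * ∑ i, |θ i|) * ((min (p.count false) (s.count true) : ℕ) : ℝ) ^ B ≤
        g * ((max (p.count false) (s.count true) : ℕ) : ℝ) →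
      g * (C * ((min (p.count false) (s.count true) : ℕ) : ℝ) ^ B)⁻¹ * ins M p s ≤
        |∑ v ∈ V, (∑ i, (c v i : ℝ) * θ i) * val (decA 0 (p ++ (v ++ s)))| := by
  obtain ⟨C1, hC1, B1, M1, h1⟩ := main1G V
  obtain ⟨C2, hC2, B2, M2, h2⟩ := main2G V
  refine ⟨max C1 C2, hC1.trans (le_max_left _ _), max B1 B2, max M1 M2, ?_⟩
  intro ι _ θ T g hT hg hgap p s hp hs c hc hne hd hL
  have hΘ : 0 ≤ T * ∑ i, |θ i| := mul_nonneg hT (Finset.sum_nonneg fun i _ => abs_nonneg _)
  have hX1 : 1 ≤ p.count false := List.count_pos_iff.2 hp.mem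
  have hY1 : 1 ≤ s.count true := List.count_pos_iff.2 hs
  have hpos := ins_pos (max M1 M2) (s := s) hp
  have hC10 : 0 < C1 := by linarith
  have hC20 : 0 < C2 := by linarith
  rcases le_total (s.count true) (p.count false) with hle | hle
  · rw [min_eq_right hle] at hd hL ⊢
    rw [max_eq_left hle] at hL
    have hY : (1 : ℝ) ≤ (s.count true : ℝ) := by exact_mod_cast hY1
    have h := h1 θ T g hT hg (fun q hq => hgap q fun i => (hq i).trans (mul_le_mul_of_nonneg_right (le_max_left _ _) hT))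
      p s hp hs c hc hne ((mul_le_mul_of_nonneg_right (le_max_left _ _) hΘ).trans hd) (by
        refine le_trans ?_ hL
        refine mul_le_mul (mul_le_mul_of_nonneg_right (le_max_left _ _) hΘ) ?_ (by positivity)
          (mul_nonneg (hC10.le.trans (le_max_left _ _)) hΘ)
        exact pow_le_pow_right₀ hY (le_max_left _ _))
    refine le_trans ?_ h
    refine mul_le_mul ?_ (ins_le1 (le_max_left _ _) hp hs) hpos.le (by positivity)
    refine mul_le_mul_of_nonneg_left ?_ hg.le
    refine inv_anti₀ (by positivity) ?_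
    exact mul_le_mul (le_max_left _ _) (pow_le_pow_right₀ hY (le_max_left _ _)) (by positivity)
      (hC10.le.trans (le_max_left _ _))
  · rw [min_eq_left hle] at hd hL ⊢
    rw [max_eq_right hle] at hL
    have hX : (1 : ℝ) ≤ (p.count false : ℝ) := by exact_mod_cast hX1
    have h := h2 θ T g hT hg (fun q hq => hgap q fun i => (hq i).trans (mul_le_mul_of_nonneg_right (le_max_right _ _) hT))
      p s hp hs c hc hne ((mul_le_mul_of_nonneg_right (le_max_right _ _) hΘ).trans hd) (by
        refine le_trans ?_ hL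
        refine mul_le_mul (mul_le_mul_of_nonneg_right (le_max_right _ _) hΘ) ?_ (by positivity)
          (mul_nonneg (hC10.le.trans (le_max_left _ _)) hΘ)
        exact pow_le_pow_right₀ hX (le_max_right _ _))
    simp only [List.append_assoc] at h
    have h3 := ins_le2 (le_max_right M1 M2) hp hs
    simp only [List.append_assoc] at h3
    refine le_trans ?_ h
    refine mul_le_mul ?_ h3 hpos.le (by positivity)
    refine mul_le_mul_of_nonneg_left ?_ hg.le
    refine inv_anti₀ (by positivity) ?_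
    exact mul_le_mul (le_max_right _ _) (pow_le_pow_right₀ hX (le_max_right _ _)) (by positivity)
      (hC20.le.trans (le_max_right _ _))

end Pool.Agent.K7.H51.MZ
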