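import Mathlib
import Pool.Agent.K7.H51.MZ.Final
import Pool.Agent.K7.H57.Suf.Two
import Pool.Agent.K7.H57.Suf.GapTwo
import Pool.Agent.Q217.MZ.DirPi

/-!
# The words `p v s`: products with powers of `π ^ 2`, decoupling
-/

set_option autoImplicit false

namespace Pool.Agent.K7.H51.MZ

open Filter Topology
open Pool.Agent.H447R2.MZ (H Adm val tendsto_H H_le_val)
open Pool.Agent.K7.H57.Suf (val_two exists_gap)
open Pool.Agent.Q217.MZ (LM_pi_sq)

/-- the smaller one of the number of the letters `x` of `p` and of the letters `y` of `s` -/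
def lo (p s : List Bool) : ℕ := min (p.count false) (s.count true)

/-- the larger one -/
def hi (p s : List Bool) : ℕ := max (p.count false) (s.count true)

lemma lo_pos {p s : List Bool} (hp : BX p) (hs : true ∈ s) : 1 ≤ lo p s :=
  le_min (List.count_pos_iff.2 hp.mem) (List.count_pos_iff.2 hs)

/-- products with the numbers `ζ(2, ..., 2)` -/
theorem powers_main (V : Finset (List Bool)) (J : ℕ) :
    ∃ κ γ : ℝ, 0 < κ ∧ 0 < γ ∧ ∃ B M : ℕ, ∀ p s : List Bool, BX p → true ∈ s → ∀ c : ℕ → List Bool → ℤ,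
      (∀ j ≤ J, ∀ v ∈ V, |(c j v : ℝ)| ≤ κ * (lo p s : ℝ) ^ γ) → (∃ j ≤ J, ∃ v ∈ V, c j v ≠ 0) →
      (lo p s : ℝ) ^ B ≤ κ * (hi p s : ℝ) →
      κ * ((lo p s : ℝ) ^ B)⁻¹ * ins M p s ≤
        |∑ v ∈ V, ∑ j ∈ Finset.range (J + 1), (c j v : ℝ) * (val (List.replicate j 2) *
          val (decA 0 (p ++ (v ++ s))))| := by
  classical
  obtain ⟨κ0, c0, hκ0, hc0, hmeas⟩ := LM_pi_sq J
  obtain ⟨κ, hκ, B, M, h⟩ := thmA _ hκ0 hc0 hmeas V
  choose r hr0 hr using val_two
  set R : ℕ := ∏ j ∈ Finset.range (J + 1), (r j).den with hR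
  have hR1 : 1 ≤ R := Nat.succ_le_of_lt (Finset.prod_pos fun j _ => Rat.den_pos _)
  have hz : ∀ j ∈ Finset.range (J + 1), ∃ z : ℤ, z ≠ 0 ∧ (R : ℝ) * r j = z := by
    intro j hj
    obtain ⟨e, he⟩ := Finset.dvd_prod_of_mem (fun j => (r j).den) hj
    have he' : R = (r j).den * e := by rw [hR, he]
    refine ⟨e * (r j).num, mul_ne_zero ?_ (Rat.num_ne_zero.2 (hr0 j)), ?_⟩
    · rintro h0
      have : e = 0 := by exact_mod_cast h0
      rw [this, mul_zero] at he'
      omega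
    · rw [he']
      have h3 := Rat.mul_den_eq_num (r j)
      have h4 : ((r j : ℚ) : ℝ) * ((r j).den : ℝ) = ((r j).num : ℝ) := by exact_mod_cast h3
      push_cast
      rw [← h4]
      ring
  choose! z hz0 hz using hz
  set S : ℝ := ∑ j ∈ Finset.range (J + 1), |(z j : ℝ)| + 1 with hS
  have hS1 : 1 ≤ S := by
    have : 0 ≤ ∑ j ∈ Finset.range (J + 1), |(z j : ℝ)| := Finset.sum_nonneg fun _ _ => abs_nonneg _
    linarith
  have hS0 : 0 < S := by linarith
  have hRr : (1 : ℝ) ≤ R := by exact_mod_cast hR1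
  have hR0 : (0 : ℝ) < R := by linarith
  refine ⟨min (κ / S) (κ / R), 1 / (1 + κ0), lt_min (by positivity) (by positivity), by positivity, B, M, ?_⟩
  intro p s hp hs c hc hne hL
  have h := h p s hp hs
  rw [show min (p.count false) (s.count true) = lo p s from rfl,
    show max (p.count false) (s.count true) = MZ.hi p s from rfl] at h
  have h1 := h (fun v i => c i v * z i) (fun v hv i => ?_) ?_ ?_
  · have hi : ∀ v, ∑ i : Fin (J + 1), ((c i v * z i : ℤ) : ℝ) * (Real.pi ^ 2) ^ (i : ℕ) =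
        R * ∑ j ∈ Finset.range (J + 1), (c j v : ℝ) * val (List.replicate j 2) := by
      intro v
      rw [Finset.mul_sum, ← Fin.sum_univ_eq_sum_range (fun j => (R : ℝ) * ((c j v : ℝ) * val (List.replicate j 2))) (J + 1)]
      refine Finset.sum_congr rfl fun i _ => ?_
      rw [hr]
      push_cast
      rw [← hz i (Finset.mem_range.2 i.2), ← pow_mul]
      ring
    have h2 : ∑ v ∈ V, (∑ i : Fin (J + 1), ((c i v * z i : ℤ) : ℝ) * (Real.pi ^ 2) ^ (i : ℕ)) *
        val (decA 0 (p ++ (v ++ s))) = R * ∑ v ∈ V, ∑ j ∈ Finset.range (J + 1), (c j v : ℝ) *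
          (val (List.replicate j 2) * val (decA 0 (p ++ (v ++ s)))) := by
      rw [Finset.mul_sum]
      refine Finset.sum_congr rfl fun v _ => ?_
      rw [hi, mul_assoc, Finset.sum_mul]
      congr 1
      exact Finset.sum_congr rfl fun j _ => by ring
    rw [h2, abs_mul, abs_of_pos hR0] at h1
    have hv : 0 ≤ ((lo p s : ℝ) ^ B)⁻¹ * ins M p s := mul_nonneg (by positivity) (ins_pos M hp).le
    have h3 : min (κ / S) (κ / R) * ((lo p s : ℝ) ^ B)⁻¹ * ins M p s ≤
        (κ * ((lo p s : ℝ) ^ B)⁻¹ * ins M p s) / R := by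
      rw [mul_assoc, mul_assoc, mul_div_right_comm]
      exact mul_le_mul_of_nonneg_right (min_le_right _ _) hv
    refine h3.trans ?_
    rw [div_le_iff₀ hR0, mul_comm _ (R : ℝ)]
    exact h1
  · push_cast
    rw [abs_mul]
    have hi : (i : ℕ) ∈ Finset.range (J + 1) := Finset.mem_range.2 i.2
    have h2 := hc i (by have := i.2; omega) v hv
    have h3 : |(z i : ℝ)| ≤ S := by
      have := Finset.single_le_sum (f := fun j => |(z j : ℝ)|) (fun j _ => abs_nonneg _) hi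
      linarith
    have hL' : (0 : ℝ) ≤ (lo p s : ℝ) ^ (1 / (1 + κ0)) := by positivity
    calc |(c i v : ℝ)| * |(z i : ℝ)| ≤ (κ / S * (lo p s : ℝ) ^ (1 / (1 + κ0))) * S := by
          refine mul_le_mul (h2.trans ?_) h3 (abs_nonneg _) (by positivity)
          exact mul_le_mul_of_nonneg_right (min_le_left _ _) hL'
      _ = κ * (lo p s : ℝ) ^ (1 / (1 + κ0)) := by
          field_simp
  · obtain ⟨j, hj, v, hv, hcj⟩ := hne
    exact ⟨v, hv, ⟨j, by omega⟩, mul_ne_zero hcj (hz0 j (Finset.mem_range.2 (by omega)))⟩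
  · refine hL.trans (mul_le_mul_of_nonneg_right ?_ (Nat.cast_nonneg _))
    refine (min_le_left _ _).trans ?_
    rw [div_le_iff₀ hS0]
    exact le_mul_of_one_le_right hκ.le hS1

/-- decoupling -/
theorem decouple {ι : Type} [Fintype ι] (θ : ι → ℝ) (V : Finset (List Bool)) (T : ℝ) (hT : 0 ≤ T) :
    ∃ D : ℕ, ∀ p s : List Bool, BX p → true ∈ s → D ≤ lo p s → lo p s ^ D ≤ hi p s →
      ∀ c : List Bool → ι → ℤ, (∀ v ∈ V, ∀ i, |(c v i : ℝ)| ≤ T) →
      ∑ v ∈ V, (∑ i, (c v i : ℝ) * θ i) * val (decA 0 (p ++ (v ++ s))) = 0 →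
      ∀ v ∈ V, ∑ i, (c v i : ℝ) * θ i = 0 := by
  obtain ⟨C, hC, B, M, h⟩ := thmG V
  obtain ⟨g, hg, hgap⟩ := exists_gap θ (C * T)
  set Θ : ℝ := ∑ i, |θ i| with hΘ
  have hΘ0 : 0 ≤ Θ := Finset.sum_nonneg fun i _ => abs_nonneg _
  have hC0 : 0 < C := by linarith
  obtain ⟨N, hN⟩ := exists_nat_ge (C * (T * Θ) / g)
  refine ⟨N + B + 1, fun p s hp hs h1 h2 c hc hsum => ?_⟩
  by_contra hcon
  push Not at hcon
  have hlo := lo_pos hp hs
  have hlor : (1 : ℝ) ≤ (lo p s : ℝ) := by exact_mod_cast hlo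
  have hd : C * (T * Θ) ≤ g * (lo p s : ℝ) := by
    rw [div_le_iff₀ hg] at hN
    refine hN.trans ?_
    rw [mul_comm]
    refine mul_le_mul_of_nonneg_left ?_ hg.le
    exact_mod_cast (by omega : N ≤ lo p s)
  have h3 := h θ T g hT hg hgap p s hp hs c hc hcon hd (by
    calc C * (T * Θ) * (lo p s : ℝ) ^ B ≤ g * (lo p s : ℝ) * (lo p s : ℝ) ^ B :=
          mul_le_mul_of_nonneg_right hd (by positivity)
      _ = g * (lo p s : ℝ) ^ (B + 1) := by ring
      _ ≤ g * (hi p s : ℝ) := by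
          refine mul_le_mul_of_nonneg_left ?_ hg.le
          refine (pow_le_pow_right₀ hlor (by omega : B + 1 ≤ N + B + 1)).trans ?_
          exact_mod_cast h2)
  rw [hsum, abs_zero] at h3
  have h4 := ins_pos M (s := s) hp
  have h5 : 0 < g * (C * (lo p s : ℝ) ^ B)⁻¹ * ins M p s := by positivity
  exact absurd h3 (not_le.2 h5)

end Pool.Agent.K7.H51.MZ
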